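import Mathlib

set_option autoImplicit false

namespace Pool.Agent.QuadModel

open IsLocalRing

open scoped Classical in
/-- In a local ring, if `f ∈ m ∖ m²` then `f` can replace one member of a finite generating set. -/
theorem exists_generator {R : Type*} [CommRing R] [IsLocalRing R] (G : Finset R)
    (hG : Ideal.span (G : Set R) = maximalIdeal R) {f : R} (hf : f ∈ maximalIdeal R)
    (hf2 : f ∉ (maximalIdeal R) ^ 2) :
    ∃ g ∈ G, g ∈ Ideal.span (((G.erase g : Finset R) : Set R) ∪ {f}) := by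
  rw [← hG] at hf
  obtain ⟨c, -, hc⟩ := Submodule.mem_span_finset.mp hf
  by_contra hcon
  push Not at hcon
  apply hf2
  rw [← hc, pow_two]
  refine Ideal.sum_mem _ fun g hg ↦ ?_
  rw [smul_eq_mul]
  refine Ideal.mul_mem_mul ?_ (hG ▸ Ideal.subset_span hg)
  rw [mem_maximalIdeal, mem_nonunits_iff]
  intro hu
  apply hcon g hg
  obtain ⟨u, hu⟩ := hu
  have h1 : c g * g = f - ∑ a ∈ G.erase g, c a * a := by
    rw [← hc, ← Finset.add_sum_erase _ _ hg]
    simp
  have h2 : g = (↑u⁻¹ : R) * (f - ∑ a ∈ G.erase g, c a * a) := by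
    rw [← h1, ← hu, ← mul_assoc, Units.inv_mul, one_mul]
  rw [h2]
  refine Ideal.mul_mem_left _ _ (Ideal.sub_mem _ (Ideal.subset_span (Or.inr rfl)) ?_)
  refine Ideal.sum_mem _ fun a ha ↦ ?_
  refine Ideal.mul_mem_left _ _ (Ideal.subset_span (Or.inl ?_))
  rw [Finset.mem_coe, ← h2]
  exact ha

/-- The quotient of a regular local ring by an element of `m ∖ m²` is regular. -/
theorem isRegularLocalRing_quotient {R : Type*} [CommRing R] [IsRegularLocalRing R] {f : R}
    (hf : f ∈ maximalIdeal R) (hf2 : f ∉ (maximalIdeal R) ^ 2) :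
    IsRegularLocalRing (R ⧸ Ideal.span {f}) := by
  classical
  have hne : Ideal.span {f} ≠ ⊤ := by
    intro h
    rw [Ideal.span_singleton_eq_top] at h
    exact hf h
  have : Nontrivial (R ⧸ Ideal.span {f}) := Ideal.Quotient.nontrivial_iff.mpr hne
  have hsurj : Function.Surjective (Ideal.Quotient.mk (Ideal.span {f})) :=
    Ideal.Quotient.mk_surjective
  have : IsLocalRing (R ⧸ Ideal.span {f}) := IsLocalRing.of_surjective' _ hsurj
  have fg : (maximalIdeal R).FG := (maximalIdeal R).fg_of_isNoetherianRing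
  have hfin := Submodule.FG.finite_generators fg
  set G : Finset R := hfin.toFinset with hGdef
  have hG : Ideal.span (G : Set R) = maximalIdeal R := by
    simp only [hGdef, Set.Finite.coe_toFinset]
    exact (maximalIdeal R).span_generators
  have hcard : G.card = (maximalIdeal R).spanFinrank := by
    rw [← Submodule.FG.generators_ncard fg, hGdef, Set.ncard_eq_toFinset_card _ hfin]
  obtain ⟨g, hg, hgm⟩ := exists_generator G hG hf hf2
  set q := Ideal.Quotient.mk (Ideal.span {f})
  have hmax : (maximalIdeal R).map q = maximalIdeal (R ⧸ Ideal.span {f}) :=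
    map_maximalIdeal_of_surjective q hsurj
  have hgen : maximalIdeal (R ⧸ Ideal.span {f}) ≤
      Ideal.span ((G.erase g).image q : Set (R ⧸ Ideal.span {f})) := by
    rw [← hmax, ← hG, Ideal.map_span, Ideal.span_le]
    rintro _ ⟨x, hx, rfl⟩
    by_cases hxg : x = g
    · subst hxg
      have h3 : q x ∈ (Ideal.span (((G.erase x : Finset R) : Set R) ∪ {f})).map q :=
        Ideal.mem_map_of_mem _ hgm
      rw [Ideal.map_span, Set.image_union, Set.image_singleton] at h3
      have hq0 : q f = 0 := Ideal.Quotient.eq_zero_iff_mem.mpr (Ideal.mem_span_singleton_self f)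
      rw [hq0] at h3
      have h4 : Ideal.span (q '' ((G.erase x : Finset R) : Set R) ∪ {0}) ≤
          Ideal.span ((G.erase x).image q : Set (R ⧸ Ideal.span {f})) := by
        rw [Ideal.span_le]
        rintro y (hy | hy)
        · exact Ideal.subset_span (by simpa using hy)
        · rw [Set.mem_singleton_iff] at hy
          rw [hy]
          exact Ideal.zero_mem _
      exact h4 h3
    · refine Ideal.subset_span ?_
      rw [Finset.coe_image]
      exact ⟨x, by simp [hxg, hx], rfl⟩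
  have hgen' : maximalIdeal (R ⧸ Ideal.span {f}) =
      Ideal.span ((G.erase g).image q : Set (R ⧸ Ideal.span {f})) := by
    refine le_antisymm hgen ?_
    rw [← hmax, Ideal.span_le]
    rintro _ hx
    rw [Finset.coe_image] at hx
    obtain ⟨x, hx, rfl⟩ := hx
    refine Ideal.mem_map_of_mem _ ?_
    rw [← hG]
    exact Ideal.subset_span (Finset.mem_of_mem_erase hx)
  have hspan : (maximalIdeal (R ⧸ Ideal.span {f})).spanFinrank ≤ G.card - 1 := by
    rw [hgen']
    refine (Submodule.spanFinrank_span_le_ncard_of_finite (Finset.finite_toSet _)).trans ?_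
    rw [Set.ncard_coe_finset]
    refine Finset.card_image_le.trans ?_
    rw [Finset.card_erase_of_mem hg]
  have hdim : ringKrullDim R ≤ ringKrullDim (R ⧸ Ideal.span {f}) + 1 := by
    have := ringKrullDim_le_ringKrullDim_quotient_add_encard ({f} : Set R) (by
      rw [Set.singleton_subset_iff]
      exact (IsLocalRing.ringJacobson_eq_maximalIdeal R) ▸ hf)
    simpa using this
  have hreg := (isRegularLocalRing_iff R).mp inferInstance
  refine IsRegularLocalRing.of_spanFinrank_maximalIdeal_le _ ?_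
  have hGpos : 1 ≤ G.card := Finset.card_pos.mpr ⟨g, hg⟩
  rw [← hreg, ← hcard] at hdim
  have h5 : ((maximalIdeal (R ⧸ Ideal.span {f})).spanFinrank : WithBot ℕ∞) ≤
      ((G.card - 1 : ℕ) : WithBot ℕ∞) := by exact_mod_cast hspan
  refine h5.trans ?_
  have h6 : ((G.card : ℕ) : WithBot ℕ∞) = ((G.card - 1 : ℕ) : WithBot ℕ∞) + 1 := by
    have : G.card = (G.card - 1) + 1 := by omega
    conv_lhs => rw [this]
    push_cast
    rfl
  rw [h6] at hdim
  have h7 : ringKrullDim (R ⧸ Ideal.span {f}) ≠ ⊥ := ringKrullDim_ne_bot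
  obtain ⟨e, he⟩ := WithBot.ne_bot_iff_exists.mp h7
  rw [← he] at hdim ⊢
  have h8 : ((G.card - 1 : ℕ) : ℕ∞) + 1 ≤ e + 1 := WithBot.coe_le_coe.mp hdim
  have h9 : ((G.card - 1 : ℕ) : ℕ∞) ≤ e := (ENat.add_le_add_iff_right ENat.one_ne_top).mp h8
  exact WithBot.coe_le_coe.mpr h9

/-- If `F, G` are linearly independent modulo `Q²` at a prime `Q` of a regular ring, then the
quotient by `(F, G)` is regular at (the image of) `Q`. -/
theorem isRegularLocalRing_atPrime_quotient {S : Type*} [CommRing S] [IsRegularRing S] (F G : S)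
    (I : Ideal S) (hI : I = Ideal.span {F, G})
    (P : Ideal (S ⧸ I)) [P.IsPrime] (Q : Ideal S) (hQ : Q = P.comap (Ideal.Quotient.mk I))
    (H : ∀ α β s : S, s ∉ Q → s * (α * F + β * G) ∈ Q ^ 2 → α ∈ Q ∧ β ∈ Q) :
    IsRegularLocalRing (Localization.AtPrime P) := by
  classical
  have hQp : Q.IsPrime := hQ ▸ Ideal.IsPrime.comap _
  have hIQ : I ≤ Q := by
    intro x hx
    rw [hQ, Ideal.mem_comap, Ideal.Quotient.eq_zero_iff_mem.mpr hx]
    exact P.zero_mem
  have hFQ : F ∈ Q := hIQ (hI ▸ Ideal.subset_span (by simp))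
  have hGQ : G ∈ Q := hIQ (hI ▸ Ideal.subset_span (by simp))
  let R₀ := Localization.AtPrime Q
  have hreg : IsRegularLocalRing R₀ := IsRegularRing.isRegularLocalRing_localization Q
  set F₀ : R₀ := algebraMap S R₀ F with hF₀
  set G₀ : R₀ := algebraMap S R₀ G with hG₀
  have hmax : Q.map (algebraMap S R₀) = maximalIdeal R₀ := Localization.AtPrime.map_eq_maximalIdeal
  have hsq : ∀ x : S, algebraMap S R₀ x ∈ (maximalIdeal R₀) ^ 2 → ∃ t, t ∉ Q ∧ t * x ∈ Q ^ 2 := by
    intro x hx
    rw [← hmax, ← Ideal.map_pow,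
      IsLocalization.algebraMap_mem_map_algebraMap_iff Q.primeCompl] at hx
    obtain ⟨t, ht, h⟩ := hx
    exact ⟨t, ht, h⟩
  have hFm : F₀ ∈ maximalIdeal R₀ := hmax ▸ Ideal.mem_map_of_mem _ hFQ
  have hGm : G₀ ∈ maximalIdeal R₀ := hmax ▸ Ideal.mem_map_of_mem _ hGQ
  have hG2 : G₀ ∉ (maximalIdeal R₀) ^ 2 := by
    intro h
    obtain ⟨t, ht, htG⟩ := hsq G h
    have := (H 0 1 t ht (by simpa using htG)).2
    exact (Ideal.ne_top_iff_one Q).mp (Ideal.IsPrime.ne_top') this
  have hreg1 := isRegularLocalRing_quotient hGm hG2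
  set q := Ideal.Quotient.mk (Ideal.span {G₀}) with hq
  have hsurj : Function.Surjective q := Ideal.Quotient.mk_surjective
  have hmax1 : (maximalIdeal R₀).map q = maximalIdeal (R₀ ⧸ Ideal.span {G₀}) :=
    map_maximalIdeal_of_surjective q hsurj
  have hF1 : q F₀ ∈ maximalIdeal (R₀ ⧸ Ideal.span {G₀}) := hmax1 ▸ Ideal.mem_map_of_mem _ hFm
  have hF2 : q F₀ ∉ (maximalIdeal (R₀ ⧸ Ideal.span {G₀})) ^ 2 := by
    intro h
    rw [← hmax1, ← Ideal.map_pow, Ideal.mem_map_iff_of_surjective q hsurj] at h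
    obtain ⟨y, hy, hyF⟩ := h
    rw [Ideal.Quotient.eq, Ideal.mem_span_singleton'] at hyF
    obtain ⟨b, hb⟩ := hyF
    obtain ⟨β, s, hbs⟩ := IsLocalization.exists_mk'_eq Q.primeCompl b
    have h1 : algebraMap S R₀ s * b = algebraMap S R₀ β := by
      rw [← hbs, mul_comm]
      exact IsLocalization.mk'_spec _ _ _
    have h2 : algebraMap S R₀ (s * F + β * G) = algebraMap S R₀ s * y := by
      rw [map_add, map_mul, map_mul, ← h1]
      have : y = b * G₀ + F₀ := by rw [hb]; ring
      rw [this]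
      ring
    have h3 : algebraMap S R₀ (s * F + β * G) ∈ (maximalIdeal R₀) ^ 2 := by
      rw [h2]
      exact Ideal.mul_mem_left _ _ hy
    obtain ⟨t, ht, htF⟩ := hsq _ h3
    exact s.2 (H s β t ht htF).1
  have hreg2 := isRegularLocalRing_quotient hF1 hF2
  have hIm : I.map (algebraMap S R₀) = Ideal.span {G₀} ⊔ Ideal.span {F₀} := by
    rw [hI, Ideal.map_span, Set.image_pair, ← Ideal.span_union, Set.union_comm]
    rfl
  have e1 : ((R₀ ⧸ Ideal.span {G₀}) ⧸ Ideal.span {q F₀}) ≃+* R₀ ⧸ I.map (algebraMap S R₀) := by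
    refine (Ideal.quotEquivOfEq ?_).trans ((DoubleQuot.quotQuotEquivQuotSup _ _).trans
      (Ideal.quotEquivOfEq hIm.symm))
    rw [Ideal.map_span, Set.image_singleton]
  have hmon : Algebra.algebraMapSubmonoid (S ⧸ I) Q.primeCompl = P.primeCompl := by
    ext x
    constructor
    · rintro ⟨y, hy, rfl⟩
      subst hQ
      exact hy
    · intro hx
      obtain ⟨y, rfl⟩ := Ideal.Quotient.mk_surjective x
      refine ⟨y, ?_, rfl⟩
      subst hQ
      exact hx
  have hloc : IsLocalization P.primeCompl (R₀ ⧸ I.map (algebraMap S R₀)) := by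
    rw [← hmon]
    infer_instance
  have e2 : (R₀ ⧸ I.map (algebraMap S R₀)) ≃+* Localization.AtPrime P :=
    (IsLocalization.algEquiv P.primeCompl _ _).toRingEquiv
  have hreg3 : IsRegularLocalRing (R₀ ⧸ I.map (algebraMap S R₀)) :=
    @IsRegularLocalRing.of_ringEquiv ((R₀ ⧸ Ideal.span {G₀}) ⧸ Ideal.span {q F₀}) _ hreg2 _ _ e1
  exact IsRegularLocalRing.of_ringEquiv e2

end Pool.Agent.QuadModel
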