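import Pool.Agent.QuadModel.Descend
import Pool.Agent.QuadModel.Regular

set_option autoImplicit false

namespace Pool.Agent.QuadModel

open Matrix Module

variable {m : ℕ}

/-- Reduction of an integral form modulo `p`. -/
abbrev redMat (p : ℕ) (C : Matrix (Fin m) (Fin m) ℤ) : Matrix (Fin m) (Fin m) (ZMod p) :=
  C.map (Int.castRingHom (ZMod p))

theorem qf_redMat (p : ℕ) (C : Matrix (Fin m) (Fin m) ℤ) (v : Fin m → ℤ) :
    qf (redMat p C) (red p v) = ((qf C v : ℤ) : ZMod p) :=
  qf_map (Int.castRingHom (ZMod p)) C v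

theorem IsMin.totally_singular {M : Matrix (Fin m) (Fin m) ℚ} (hM : M.det ≠ 0)
    {C : Matrix (Fin m) (Fin m) ℤ} (hC : IsMin M C) (p : ℕ) [hp : Fact p.Prime]
    (W : Submodule (ZMod p) (Fin m → ZMod p)) (hW : ∀ x ∈ W, qf (redMat p C) x = 0) :
    2 * finrank (ZMod p) W ≤ m := by
  have h1 := hC.subspace hM p W 1 (fun v hv ↦ by
    rw [pow_one, ← ZMod.intCast_zmod_eq_zero_iff_dvd, ← qf_redMat]
    exact hW _ hv)
  have h2 := Submodule.finrank_le W
  rw [Module.finrank_fin_fun] at h2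
  omega

theorem IsMin.finrank_radSub_le_two {M : Matrix (Fin m) (Fin m) ℚ} (hM : M.det ≠ 0)
    {C : Matrix (Fin m) (Fin m) ℤ} (hC : IsMin M C) (p : ℕ) [hp : Fact p.Prime] :
    finrank (ZMod p) (radSub (redMat p C)) ≤ 2 ∧
      (Odd m → finrank (ZMod p) (radSub (redMat p C)) ≤ 1) := by
  obtain ⟨n, h1, h2⟩ := radSub_bound p (redMat p C) (hC.totally_singular hM p)
  refine ⟨by omega, ?_⟩
  rintro ⟨k, hk⟩
  omega

theorem IsMin.not_sq_dvd {M : Matrix (Fin m) (Fin m) ℚ} (hM : M.det ≠ 0)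
    {C : Matrix (Fin m) (Fin m) ℤ} (hC : IsMin M C) (p : ℕ) [hp : Fact p.Prime]
    (a : Fin m → ℤ) (ha : red p a ∈ radSub (redMat p C)) (ha0 : red p a ≠ 0) :
    ¬ (p : ℤ) ^ 2 ∣ qf C a := by
  intro hdvd
  have h1 := hC.subspace hM p (Submodule.span (ZMod p) {red p a}) 2 (fun v hv ↦ by
    obtain ⟨c, hc⟩ := Submodule.mem_span_singleton.mp hv
    obtain ⟨c', rfl⟩ := ZMod.intCast_surjective c
    have h2 : ∀ i, (p : ℤ) ∣ (v - c' • a) i := by
      intro i
      rw [← ZMod.intCast_zmod_eq_zero_iff_dvd]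
      have := congrFun hc i
      simp only [Pi.smul_apply, red_apply, smul_eq_mul] at this
      simp only [Pi.sub_apply, Pi.smul_apply, smul_eq_mul]
      push_cast
      rw [← this, sub_self]
    choose u hu using h2
    have h3 : v = (p : ℤ) • u + c' • a := by
      ext i
      have := hu i
      simp only [Pi.sub_apply, Pi.smul_apply, smul_eq_mul, Pi.add_apply] at this ⊢
      linarith
    have h4 : ∀ i, (p : ℤ) ∣ ((C + Cᵀ) *ᵥ a) i := by
      intro i
      rw [← ZMod.intCast_zmod_eq_zero_iff_dvd]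
      have := congrFun ha.1 i
      rw [Pi.zero_apply] at this
      rw [← this]
      simp [Matrix.mulVec, dotProduct]
    have h5 : (p : ℤ) ∣ u ⬝ᵥ ((C + Cᵀ) *ᵥ a) := Finset.dvd_sum fun i _ ↦
      Dvd.dvd.mul_left (h4 i) _
    rw [h3, qf_add, qf_smul, qf_smul, Matrix.mulVec_smul, smul_dotProduct, dotProduct_smul]
    refine dvd_add (dvd_add (Dvd.intro _ rfl) (Dvd.dvd.mul_left hdvd _)) ?_
    obtain ⟨d, hd⟩ := h5
    rw [hd]
    exact ⟨c' * d, by simp only [smul_eq_mul]; ring⟩)
  rw [finrank_span_singleton ha0] at h1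
  have : m ≠ 0 := by
    rintro rfl
    exact ha0 (Subsingleton.elim _ _)
  omega

theorem pderiv_qpoly {R : Type*} [CommRing R] (D : Matrix (Fin m) (Fin m) R) (k : Fin m) :
    MvPolynomial.pderiv k (qpoly D) =
      ((D + Dᵀ).map MvPolynomial.C *ᵥ MvPolynomial.X) k := by
  classical
  rw [qpoly_eq_sum]
  simp only [map_sum, Derivation.leibniz, MvPolynomial.pderiv_X, MvPolynomial.pderiv_C,
    smul_eq_mul, Matrix.mulVec, dotProduct, Matrix.map_apply, Matrix.add_apply,
    Matrix.transpose_apply, map_add, add_mul, Finset.sum_add_distrib, mul_zero, add_zero]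
  simp only [Pi.single_apply, mul_ite, mul_one, mul_zero, Finset.sum_ite_eq', Finset.mem_univ,
    if_true]
  rw [add_comm]
  congr 1
  rw [Finset.sum_comm]
  refine Finset.sum_congr rfl fun j _ ↦ ?_
  rw [Finset.sum_ite_eq' Finset.univ k, if_pos (Finset.mem_univ k), mul_comm]

theorem derivation_mem {A R : Type*} [CommRing A] [CommRing R] [Algebra A R]
    (D : Derivation A R R) (Q : Ideal R) {x : R}
    (hx : x ∈ Q ^ 2) : D x ∈ Q := by
  rw [pow_two] at hx
  refine Submodule.mul_induction_on hx (fun a ha b hb ↦ ?_) (fun a b ha hb ↦ ?_)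
  · rw [Derivation.leibniz]
    exact Q.add_mem (Q.mul_mem_right _ ha) (Q.mul_mem_right _ hb)
  · rw [map_add]
    exact Q.add_mem ha hb

theorem euler_qpoly {R : Type*} [CommRing R] (D : Matrix (Fin m) (Fin m) R) :
    ∑ j, MvPolynomial.X j * MvPolynomial.pderiv j (qpoly D) = 2 * qpoly D := by
  have h1 : 2 * qpoly D = _ := two_mul_qf (D.map MvPolynomial.C) MvPolynomial.X
  rw [h1]
  unfold dotProduct
  refine Finset.sum_congr rfl fun j _ ↦ ?_
  rw [pderiv_qpoly]
  congr 2
  ext a b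
  simp

/-- The local condition which makes the chart of a minimal integral form regular. -/
theorem IsMin.local_condition {M : Matrix (Fin m) (Fin m) ℚ} (hM : M.det ≠ 0)
    {C : Matrix (Fin m) (Fin m) ℤ} (hC : IsMin M C)
    (hrad : ∀ (p : ℕ) [Fact p.Prime], finrank (ZMod p) (radSub (redMat p C)) ≤ 1)
    (i : Fin m) (Q : Ideal (MvPolynomial (Fin m) ℤ)) [hQ : Q.IsPrime]
    (hF : qpoly C ∈ Q) (hX : (MvPolynomial.X i - 1 : MvPolynomial (Fin m) ℤ) ∈ Q)
    (α β s : MvPolynomial (Fin m) ℤ) (hs : s ∉ Q)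
    (h : s * (α * qpoly C + β * (MvPolynomial.X i - 1)) ∈ Q ^ 2) : α ∈ Q ∧ β ∈ Q := by
  classical
  -- differentiate
  have hder : ∀ j, α * MvPolynomial.pderiv j (qpoly C) + β * MvPolynomial.pderiv j
      (MvPolynomial.X i - 1 : MvPolynomial (Fin m) ℤ) ∈ Q := by
    intro j
    have h1 := derivation_mem (MvPolynomial.pderiv j) Q h
    simp only [Derivation.leibniz, map_add, smul_eq_mul] at h1
    have h2 : s * (α * MvPolynomial.pderiv j (qpoly C) + β * MvPolynomial.pderiv j
      (MvPolynomial.X i - 1 : MvPolynomial (Fin m) ℤ)) ∈ Q := by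
      have h3 : s * (qpoly C * MvPolynomial.pderiv j α + (MvPolynomial.X i - 1) *
          MvPolynomial.pderiv j β) + (α * qpoly C + β * (MvPolynomial.X i - 1)) *
          MvPolynomial.pderiv j s ∈ Q := by
        refine Q.add_mem (Q.mul_mem_left _ (Q.add_mem (Q.mul_mem_right _ hF)
          (Q.mul_mem_right _ hX))) (Q.mul_mem_right _ (Q.add_mem (Q.mul_mem_left _ hF)
          (Q.mul_mem_left _ hX)))
      have h4 := Q.sub_mem h1 h3
      convert h4 using 1
      ring
    exact (hQ.mem_or_mem h2).resolve_left hs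
  have hpX : ∀ j, MvPolynomial.pderiv j (MvPolynomial.X i - 1 : MvPolynomial (Fin m) ℤ) =
      if i = j then 1 else 0 := by
    intro j
    rw [map_sub, MvPolynomial.pderiv_one, sub_zero, MvPolynomial.pderiv_X, Pi.single_apply]
  by_cases hα : α ∈ Q
  · refine ⟨hα, ?_⟩
    have h1 := hder i
    rw [hpX, if_pos rfl, mul_one] at h1
    have h2 := Q.sub_mem h1 (Q.mul_mem_right (MvPolynomial.pderiv i (qpoly C)) hα)
    convert h2 using 1
    ring
  exfalso
  have hj : ∀ j, j ≠ i → MvPolynomial.pderiv j (qpoly C) ∈ Q := by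
    intro j hji
    have h1 := hder j
    rw [hpX, if_neg hji.symm, mul_zero, add_zero] at h1
    exact (hQ.mem_or_mem h1).resolve_left hα
  have heuler : ∑ j, MvPolynomial.X j * MvPolynomial.pderiv j (qpoly C) = 2 * qpoly C :=
    euler_qpoly C
  have hi : MvPolynomial.pderiv i (qpoly C) ∈ Q := by
    have h1 : MvPolynomial.X i * MvPolynomial.pderiv i (qpoly C) ∈ Q := by
      have h2 : ∑ j ∈ Finset.univ.erase i, MvPolynomial.X j * MvPolynomial.pderiv j (qpoly C) ∈ Q :=
        Q.sum_mem fun j hj' ↦ Q.mul_mem_left _ (hj j (Finset.ne_of_mem_erase hj'))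
      have h3 := Q.sub_mem (Q.mul_mem_left 2 hF) h2
      rw [← heuler, ← Finset.add_sum_erase _ _ (Finset.mem_univ i)] at h3
      convert h3 using 1
      ring
    have h4 := Q.sub_mem h1 (Q.mul_mem_right (MvPolynomial.pderiv i (qpoly C)) hX)
    convert h4 using 1
    ring
  have hall : ∀ j, MvPolynomial.pderiv j (qpoly C) ∈ Q := fun j ↦ by
    by_cases hji : j = i
    · rw [hji]; exact hi
    · exact hj j hji
  have hβ : β ∈ Q := by
    have h1 := hder i
    rw [hpX, if_pos rfl, mul_one] at h1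
    have h2 := Q.sub_mem h1 (Q.mul_mem_left α hi)
    convert h2 using 1
    ring
  -- pass to the residue field
  let κ := FractionRing (MvPolynomial (Fin m) ℤ ⧸ Q)
  let π : MvPolynomial (Fin m) ℤ →+* κ :=
    (algebraMap (MvPolynomial (Fin m) ℤ ⧸ Q) κ).comp (Ideal.Quotient.mk Q)
  have hπ : ∀ f, π f = 0 ↔ f ∈ Q := by
    intro f
    change algebraMap (MvPolynomial (Fin m) ℤ ⧸ Q) κ (Ideal.Quotient.mk Q f) = 0 ↔ _
    rw [map_eq_zero_iff _ (IsFractionRing.injective (MvPolynomial (Fin m) ℤ ⧸ Q) κ),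
      Ideal.Quotient.eq_zero_iff_mem]
  let x : Fin m → κ := fun j ↦ π (MvPolynomial.X j)
  have hπe : ∀ f, π f = MvPolynomial.eval₂ (Int.castRingHom κ) x f := by
    intro f
    have : π = MvPolynomial.eval₂Hom (Int.castRingHom κ) x :=
      MvPolynomial.ringHom_ext (fun r ↦ by simp) (fun j ↦ by simp [x])
    conv_lhs => rw [this]
    rfl
  have hxi : x i = 1 := by
    have := (hπ _).mpr hX
    rwa [map_sub, map_one, sub_eq_zero] at this
  have hGx : (C + Cᵀ).map (Int.castRingHom κ) *ᵥ x = 0 := by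
    ext j
    have := (hπ _).mpr (hall j)
    rw [pderiv_qpoly] at this
    rw [Pi.zero_apply, ← this]
    simp [Matrix.mulVec, dotProduct, x]
  have hqx : qf (C.map (Int.castRingHom κ)) x = 0 := by
    rw [← eval₂_qpoly, ← hπe]
    exact (hπ _).mpr hF
  have hdet : ((C + Cᵀ).det : κ) = 0 := by
    by_contra hne
    have h1 : ((C + Cᵀ).map (Int.castRingHom κ)).det ≠ 0 := by
      rwa [← RingHom.mapMatrix_apply, ← RingHom.map_det]
    have h2 := Matrix.eq_zero_of_mulVec_eq_zero h1 hGx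
    rw [h2] at hxi
    exact zero_ne_one hxi
  obtain ⟨p, hcp⟩ := CharP.exists κ
  have hp0 : p ≠ 0 := by
    rintro rfl
    have := (CharP.intCast_eq_zero_iff κ 0 _).mp hdet
    exact hC.1.det_ne_zero hM (by simpa using this)
  have hpp : Fact p.Prime := ⟨(CharP.char_is_prime_or_zero κ p).resolve_right hp0⟩
  let _ : Algebra (ZMod p) κ := ZMod.algebra κ p
  have hcast : ∀ z : ℤ, algebraMap (ZMod p) κ (z : ZMod p) = (z : κ) := fun z ↦ map_intCast _ z
  have hmap : ∀ D : Matrix (Fin m) (Fin m) ℤ, (redMat p D).map (algebraMap (ZMod p) κ) =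
      D.map (Int.castRingHom κ) := by
    intro D
    ext a b
    simp
  obtain ⟨w, hw, hxw⟩ := descend p (κ := κ) (redMat p C) (hrad p) x
    (by
      rw [← hGx, ← hmap]
      congr 2
      ext a b
      simp)
    (by rw [hmap]; exact hqx) i hxi
  obtain ⟨a, ha⟩ := red_surjective p w
  have hev : ∀ f, π f = ((MvPolynomial.eval a f : ℤ) : κ) := by
    intro f
    have : π = (Int.castRingHom κ).comp (MvPolynomial.eval a) :=
      MvPolynomial.ringHom_ext (fun r ↦ by simp) (fun j ↦ by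
        have := hxw j
        rw [← ha, red_apply, hcast] at this
        simpa using this)
    conv_lhs => rw [this]
    rfl
  have hmem : ∀ f, f ∈ Q ↔ (p : ℤ) ∣ MvPolynomial.eval a f := by
    intro f
    rw [← hπ, hev, CharP.intCast_eq_zero_iff κ p]
  have hmap2 : ∀ f ∈ Q ^ 2, (p : ℤ) ^ 2 ∣ MvPolynomial.eval a f := by
    intro f hf
    have h1 : Ideal.map (MvPolynomial.eval a) Q ≤ Ideal.span {(p : ℤ)} := by
      rw [Ideal.map_le_iff_le_comap]
      intro f hf
      rw [Ideal.mem_comap, Ideal.mem_span_singleton]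
      exact (hmem f).mp hf
    have h2 := Ideal.mem_map_of_mem (MvPolynomial.eval a) hf
    rw [Ideal.map_pow] at h2
    have h3 := Ideal.pow_right_mono h1 2 h2
    rw [Ideal.span_singleton_pow, Ideal.mem_span_singleton] at h3
    exact h3
  have hfin := hmap2 _ h
  simp only [map_mul, map_add, map_sub, map_one, MvPolynomial.eval_X, eval_qpoly] at hfin
  have hpI : Prime (p : ℤ) := Nat.prime_iff_prime_int.mp hpp.out
  have hs' : ¬ (p : ℤ) ∣ MvPolynomial.eval a s := fun hcon ↦ hs ((hmem s).mpr hcon)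
  have hα' : ¬ (p : ℤ) ∣ MvPolynomial.eval a α := fun hcon ↦ hα ((hmem α).mpr hcon)
  have hβ' := (hmem β).mp hβ
  have hX' := (hmem _).mp hX
  simp only [map_sub, map_one, MvPolynomial.eval_X] at hX'
  have h1 := hpI.pow_dvd_of_dvd_mul_left 2 hs' hfin
  have h2 : (p : ℤ) ^ 2 ∣ MvPolynomial.eval a β * (a i - 1) := by
    rw [pow_two]
    exact mul_dvd_mul hβ' hX'
  have h3 := (dvd_add_left h2).mp h1
  have h4 := hpI.pow_dvd_of_dvd_mul_left 2 hα' h3
  refine hC.not_sq_dvd hM p a (ha ▸ hw) ?_ h4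
  intro h0
  have := hxw i
  rw [← ha, h0, hxi] at this
  simp at this

end Pool.Agent.QuadModel
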