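import Pool.Agent.QuadModel.ProjBasic

set_option autoImplicit false

namespace Pool.Agent.QuadModel

open AlgebraicGeometry CategoryTheory HomogeneousLocalization

variable {A : Type} [CommRing A] (𝒜 : ℕ → Submodule ℤ A) [GradedAlgebra 𝒜]

theorem regular_section {x : A} (hx : x ∈ 𝒜 1) (hreg : IsRegularRing (Away 𝒜 x)) :
    IsRegularRing Γ(Proj 𝒜, Proj.basicOpen 𝒜 x) :=
  IsRegularRing.of_ringEquiv (Proj.basicOpenIsoAway 𝒜 x hx one_pos).commRingCatIsoToRingEquiv

theorem isLocallyNoetherian_proj {ι : Type*} (x : ι → A) (hx : ∀ i, x i ∈ 𝒜 1)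
    (hcov : ⨆ i, Proj.basicOpen 𝒜 (x i) = ⊤) (hreg : ∀ i, IsRegularRing (Away 𝒜 (x i))) :
    IsLocallyNoetherian (Proj 𝒜) := by
  refine isLocallyNoetherian_of_affine_cover
    (S := fun i ↦ ⟨Proj.basicOpen 𝒜 (x i), Proj.isAffineOpen_basicOpen 𝒜 (x i) (hx i) one_pos⟩)
    hcov fun i ↦ ?_
  have := regular_section 𝒜 (hx i) (hreg i)
  infer_instance

theorem isDomain_away [IsDomain A] {x : A} (hx0 : x ≠ 0) : IsDomain (Away 𝒜 x) := by
  have h0 : Submonoid.powers x ≤ nonZeroDivisors A := powers_le_nonZeroDivisors_of_noZeroDivisors hx0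
  have h1 : IsDomain (Localization.Away x) := IsLocalization.isDomain_localization h0
  exact (HomogeneousLocalization.val_injective (𝒜 := 𝒜) (Submonoid.powers x)).isDomain
    (algebraMap (Away 𝒜 x) (Localization.Away x))

theorem charZero_away [IsDomain A] [CharZero A] {x : A} (hx0 : x ≠ 0) : CharZero (Away 𝒜 x) := by
  have h0 : Submonoid.powers x ≤ nonZeroDivisors A := powers_le_nonZeroDivisors_of_noZeroDivisors hx0
  have h1 : CharZero (Localization.Away x) :=
    charZero_of_injective_algebraMap (IsLocalization.injective (Localization.Away x) h0)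
  refine ⟨fun a b hab ↦ ?_⟩
  have := congrArg HomogeneousLocalization.val hab
  rw [HomogeneousLocalization.val_natCast, HomogeneousLocalization.val_natCast] at this
  exact_mod_cast this

theorem flat_proj [IsDomain A] [CharZero A] {ι : Type} (x : ι → A) (hx : ∀ i, x i ∈ 𝒜 1)
    (hx0 : ∀ i, x i ≠ 0)
    (hcov : ⨆ i, Proj.basicOpen 𝒜 (x i) = ⊤) :
    Flat (specZIsTerminal.from (Proj 𝒜)) := by
  have hloc : IsZariskiLocalAtSource (@AlgebraicGeometry.Flat : MorphismProperty Scheme.{0}) :=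
    HasRingHomProperty.instIsZariskiLocalAtSource
  have hresp : MorphismProperty.RespectsIso
    (@AlgebraicGeometry.Flat : MorphismProperty Scheme.{0}) := hloc.toRespects
  rw [IsZariskiLocalAtSource.iff_of_iSup_eq_top (P := @AlgebraicGeometry.Flat) _ hcov]
  intro i
  rw [← MorphismProperty.cancel_left_of_respectsIso @Flat
    (Proj.basicOpenIsoSpec 𝒜 (x i) (hx i) one_pos).inv]
  have h1 : (Proj.basicOpenIsoSpec 𝒜 (x i) (hx i) one_pos).inv ≫
      (Proj.basicOpen 𝒜 (x i)).ι ≫ specZIsTerminal.from (Proj 𝒜) =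
      Spec.map (CommRingCat.ofHom (Int.castRingHom (Away 𝒜 (x i)))) :=
    specZIsTerminal.hom_ext _ _
  rw [h1, Flat.SpecMap_iff]
  have hd := isDomain_away 𝒜 (hx0 i)
  have hc := charZero_away 𝒜 (hx0 i)
  have : Module.IsTorsionFree ℤ (Away 𝒜 (x i)) := inferInstance
  have hf : Module.Flat ℤ (Away 𝒜 (x i)) := inferInstance
  rw [CommRingCat.hom_ofHom, ← algebraMap_int_eq, RingHom.flat_algebraMap_iff]
  exact hf

end Pool.Agent.QuadModel
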