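import Mathlib

set_option autoImplicit false

namespace Pool.Agent.QuadModel

open AlgebraicGeometry CategoryTheory CategoryTheory.Limits HomogeneousLocalization

section Algebra

variable {A B : Type} [CommRing A] [CommRing B] [Algebra ℚ B]
  (𝒜 : ℕ → Submodule ℤ A) [GradedAlgebra 𝒜] (ℬ : ℕ → Submodule ℚ B) [GradedAlgebra ℬ]
  (ψ : 𝒜 →+*ᵍ ℬ)

theorem isUnit_intCast_away (b : B) {n : ℤ} (hn : n ≠ 0) : IsUnit (n : Away ℬ b) := by
  have h1 : IsUnit ((n : ℤ) : ℚ) := by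
    rw [isUnit_iff_ne_zero]
    exact_mod_cast hn
  have h2 := (h1.map (algebraMap ℚ (ℬ 0))).map (fromZeroRingHom ℬ (Submonoid.powers b))
  rwa [map_intCast, map_intCast] at h2

theorem away_map_injective (hψ : Function.Injective ψ) {x : A} (hx : x ∈ 𝒜 1) :
    Function.Injective (Away.map ψ x) := by
  rw [injective_iff_map_eq_zero]
  intro z hz
  obtain ⟨k, a, ha, rfl⟩ := Away.mk_surjective 𝒜 hx z
  rw [Away.map_mk] at hz
  have h1 := congrArg HomogeneousLocalization.val hz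
  rw [Away.val_mk, HomogeneousLocalization.val_zero, Localization.mk_eq_mk',
    IsLocalization.mk'_eq_zero_iff] at h1
  obtain ⟨⟨_, j, rfl⟩, h2⟩ := h1
  simp only at h2
  rw [← map_pow, ← map_mul, map_eq_zero_iff _ hψ] at h2
  apply HomogeneousLocalization.val_injective
  rw [Away.val_mk, HomogeneousLocalization.val_zero, Localization.mk_eq_mk',
    IsLocalization.mk'_eq_zero_iff]
  exact ⟨⟨_, j, rfl⟩, h2⟩

/-- Degree-zero localisations commute with inverting the nonzero integers. -/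
theorem isLocalization_away (hψ : Function.Injective ψ)
    (hfrac : ∀ k, ∀ z ∈ ℬ k, ∃ n : ℤ, n ≠ 0 ∧ ∃ a ∈ 𝒜 k, ψ a = (n : B) * z)
    {x : A} (hx : x ∈ 𝒜 1) :
    letI := (Away.map ψ x).toAlgebra
    IsLocalization (Algebra.algebraMapSubmonoid (Away 𝒜 x) (nonZeroDivisors ℤ))
      (Away ℬ (ψ x)) := by
  let _ := (Away.map ψ x).toAlgebra
  have hbx : ψ x ∈ ℬ 1 := ψ.2 hx
  refine ⟨?_, ?_, ?_⟩
  · rintro ⟨_, n, hn, rfl⟩
    change IsUnit (Away.map ψ x (algebraMap ℤ (Away 𝒜 x) n))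
    rw [eq_intCast, map_intCast]
    exact isUnit_intCast_away ℬ (ψ x) (nonZeroDivisors.ne_zero hn)
  · intro z
    obtain ⟨k, b, hb, rfl⟩ := Away.mk_surjective ℬ hbx z
    obtain ⟨n, hn, a, ha, hab⟩ := hfrac _ b hb
    refine ⟨(Away.mk 𝒜 hx k a ha, ⟨_, n, mem_nonZeroDivisors_of_ne_zero hn, rfl⟩), ?_⟩
    change _ * Away.map ψ x (algebraMap ℤ (Away 𝒜 x) n) = Away.map ψ x (Away.mk 𝒜 hx k a ha)
    rw [eq_intCast, map_intCast, Away.map_mk]
    apply HomogeneousLocalization.val_injective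
    rw [HomogeneousLocalization.val_mul, HomogeneousLocalization.val_intCast, Away.val_mk,
      Away.val_mk, ← map_intCast (algebraMap B (Localization.Away (ψ x))) n,
      ← Localization.mk_one_eq_algebraMap, Localization.mk_mul, hab, mul_one, mul_comm b]
  · intro y z hyz
    refine ⟨1, ?_⟩
    rw [away_map_injective 𝒜 ℬ ψ hψ hx hyz]

theorem isPullback_spec_away (hψ : Function.Injective ψ)
    (hfrac : ∀ k, ∀ z ∈ ℬ k, ∃ n : ℤ, n ≠ 0 ∧ ∃ a ∈ 𝒜 k, ψ a = (n : B) * z)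
    {x : A} (hx : x ∈ 𝒜 1) :
    IsPullback (Spec.map (CommRingCat.ofHom (Away.map ψ x)))
      (Spec.map (CommRingCat.ofHom ((fromZeroRingHom ℬ (Submonoid.powers (ψ x))).comp
        (algebraMap ℚ (ℬ 0)))))
      (Spec.map (CommRingCat.ofHom (algebraMap ℤ (Away 𝒜 x))))
      (Spec.map (CommRingCat.ofHom (algebraMap ℤ ℚ))) := by
  let _ : Algebra (Away 𝒜 x) (Away ℬ (ψ x)) := (Away.map ψ x).toAlgebra
  let _ : Algebra ℚ (Away ℬ (ψ x)) :=
    ((fromZeroRingHom ℬ (Submonoid.powers (ψ x))).comp (algebraMap ℚ (ℬ 0))).toAlgebra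
  have h1 : @IsScalarTower ℤ (Away 𝒜 x) (Away ℬ (ψ x)) Algebra.toSMul Algebra.toSMul
      Algebra.toSMul := IsScalarTower.of_algebraMap_eq' (RingHom.ext_int _ _)
  have h2 : @IsScalarTower ℤ ℚ (Away ℬ (ψ x)) Algebra.toSMul Algebra.toSMul
      Algebra.toSMul := IsScalarTower.of_algebraMap_eq' (RingHom.ext_int _ _)
  have h3 := isLocalization_away 𝒜 ℬ ψ hψ hfrac hx
  have h4 : Algebra.IsPushout ℤ (Away 𝒜 x) ℚ (Away ℬ (ψ x)) :=
    Algebra.isPushout_of_isLocalization (nonZeroDivisors ℤ) ℚ (Away 𝒜 x) (Away ℬ (ψ x))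
  exact isPullback_SpecMap_of_isPushout _ _ _ _
    (CommRingCat.isPushout_of_isPushout ℤ (Away 𝒜 x) ℚ (Away ℬ (ψ x)))

theorem irrelevant_le_map
    (hfrac : ∀ k, ∀ z ∈ ℬ k, ∃ n : ℤ, n ≠ 0 ∧ ∃ a ∈ 𝒜 k, ψ a = (n : B) * z) :
    HomogeneousIdeal.irrelevant ℬ ≤ (HomogeneousIdeal.irrelevant 𝒜).map ψ := by
  rw [HomogeneousIdeal.irrelevant_le]
  intro k hk z hz
  obtain ⟨n, hn, a, ha, hab⟩ := hfrac k z hz
  have h1 : ψ a ∈ ((HomogeneousIdeal.irrelevant 𝒜).map ψ).toIdeal :=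
    Ideal.mem_map_of_mem ψ (HomogeneousIdeal.mem_irrelevant_of_mem 𝒜 hk ha)
  have h2 : z = algebraMap ℚ B ((n : ℚ)⁻¹) * ψ a := by
    rw [hab, ← mul_assoc, ← map_intCast (algebraMap ℚ B), ← map_mul, inv_mul_cancel₀
      (by exact_mod_cast hn), map_one, one_mul]
  rw [h2]
  exact Ideal.mul_mem_left _ _ h1

end Algebra

section Geometry

variable {A B : Type} [CommRing A] [CommRing B] [Algebra ℚ B]
  (𝒜 : ℕ → Submodule ℤ A) [GradedAlgebra 𝒜] (ℬ : ℕ → Submodule ℚ B) [GradedAlgebra ℬ]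
  (ψ : 𝒜 →+*ᵍ ℬ)

theorem hom_spec_rat_ext {R : CommRingCat.{0}} (f g : Spec R ⟶ Spec (CommRingCat.of ℚ)) :
    f = g := by
  obtain ⟨f', rfl⟩ := Spec.map_surjective f
  obtain ⟨g', rfl⟩ := Spec.map_surjective g
  congr 1
  ext1
  exact Subsingleton.elim _ _

/-- The generic fibre of `Proj` of a graded ring over the integers. -/
theorem generic_fibre (hψ : Function.Injective ψ)
    (hfrac : ∀ k, ∀ z ∈ ℬ k, ∃ n : ℤ, n ≠ 0 ∧ ∃ a ∈ 𝒜 k, ψ a = (n : B) * z)
    {ι : Type} (x : ι → A) (hx : ∀ i, x i ∈ 𝒜 1)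
    (hcov : (HomogeneousIdeal.irrelevant 𝒜).toIdeal ≤ Ideal.span (Set.range x)) :
    Nonempty (pullback (specZIsTerminal.from (Proj 𝒜))
      (specZIsTerminal.from (Spec (CommRingCat.of ℚ))) ≅ Proj ℬ) := by
  set tY := specZIsTerminal.from (Proj 𝒜) with htY
  set tQ := specZIsTerminal.from (Spec (CommRingCat.of ℚ)) with htQ
  let π := Proj.map ψ (irrelevant_le_map 𝒜 ℬ ψ hfrac)
  let s : Proj ℬ ⟶ Spec (CommRingCat.of ℚ) :=
    Proj.toSpecZero ℬ ≫ Spec.map (CommRingCat.ofHom (algebraMap ℚ (ℬ 0)))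
  let t : Proj ℬ ⟶ pullback tY tQ := pullback.lift π s (specZIsTerminal.hom_ext _ _)
  have ht1 : t ≫ pullback.fst tY tQ = π := pullback.lift_fst _ _ _
  have ht2 : t ≫ pullback.snd tY tQ = s := pullback.lift_snd _ _ _
  have hiso : IsIso t := by
    let 𝒱 : (Proj 𝒜).OpenCover :=
      (Proj.affineOpenCoverOfIrrelevantLESpan 𝒜 x hx (fun _ ↦ one_pos) hcov).openCover
    let 𝒰 := 𝒱.pullback₁ (pullback.fst tY tQ)
    change MorphismProperty.isomorphisms Scheme t
    refine IsZariskiLocalAtTarget.of_openCover 𝒰 fun i ↦ ?_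
    -- the chart `Spec B_i` of `Proj ℬ`
    let a := Proj.awayι ℬ (ψ (x i)) (ψ.2 (hx i)) one_pos
    let c := Proj.awayι 𝒜 (x i) (hx i) one_pos
    let g := Spec.map (CommRingCat.ofHom (Away.map ψ (x i)))
    have hcomm : a ≫ π = g ≫ c := Proj.awayι_comp_map ψ _ one_pos (x i) (hx i)
    have houter : IsPullback a g π c := by
      refine (IsOpenImmersion.isPullback g a c π hcomm ?_).flip
      rw [Proj.opensRange_awayι, Proj.opensRange_awayι]
      exact Proj.map_preimage_basicOpen ψ _ (x i)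
    let b : Spec (.of (Away ℬ (ψ (x i)))) ⟶ pullback (pullback.fst tY tQ) c :=
      pullback.lift (a ≫ t) g (by rw [Category.assoc, ht1, hcomm])
    have hb1 : b ≫ pullback.fst (pullback.fst tY tQ) c = a ≫ t := pullback.lift_fst _ _ _
    have hb2 : b ≫ pullback.snd (pullback.fst tY tQ) c = g := pullback.lift_snd _ _ _
    have hleft : IsPullback a b t (pullback.fst (pullback.fst tY tQ) c) := by
      refine IsPullback.of_bot (v₂₁ := pullback.snd (pullback.fst tY tQ) c)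
        (v₂₂ := pullback.fst tY tQ) (h₃₁ := c) ?_ hb1.symm (IsPullback.of_hasPullback _ _)
      rw [hb2, ht1]
      exact houter
    have hU : IsPullback (pullback.snd (pullback.fst tY tQ) c)
        (pullback.fst (pullback.fst tY tQ) c ≫ pullback.snd tY tQ) (c ≫ tY) tQ :=
      (IsPullback.of_hasPullback (pullback.fst tY tQ) c).flip.paste_vert
        (IsPullback.of_hasPullback tY tQ)
    have hZ := isPullback_spec_away 𝒜 ℬ ψ hψ hfrac (hx i)
    have e1 : Spec.map (CommRingCat.ofHom (algebraMap ℤ (Away 𝒜 (x i)))) = c ≫ tY :=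
      specZIsTerminal.hom_ext _ _
    have e2 : Spec.map (CommRingCat.ofHom (algebraMap ℤ ℚ)) = tQ :=
      specZIsTerminal.hom_ext _ _
    rw [e1, e2] at hZ
    have hb : b = (hZ.isoIsPullback _ _ hU).hom := by
      apply hU.hom_ext
      · rw [IsPullback.isoIsPullback_hom_fst, hb2]
      · exact hom_spec_rat_ext _ _
    have hbiso : IsIso b := by
      rw [hb]
      infer_instance
    have hsnd : Scheme.Cover.pullbackHom 𝒰 t i = hleft.isoPullback.inv ≫ b :=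
      (hleft.isoPullback_inv_snd).symm
    have h3 : IsIso (hleft.isoPullback.inv ≫ b) := IsIso.comp_isIso
    rw [hsnd]
    exact h3
  exact ⟨(asIso t).symm⟩

end Geometry

end Pool.Agent.QuadModel
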