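import Pool.Agent.QuadModel.Local

set_option autoImplicit false

namespace Pool.Agent.QuadModel

open Matrix Module

variable {m : ℕ}

theorem pderiv_const {g : MvPolynomial (Fin m) ℤ} (hg : g.totalDegree ≤ 1) (j : Fin m) :
    ∃ c, MvPolynomial.pderiv j g = MvPolynomial.C c := by
  have h1 : (MvPolynomial.pderiv j g).IsHomogeneous 0 := by
    rw [← MvPolynomial.sum_homogeneousComponent g, map_sum]
    refine MvPolynomial.IsHomogeneous.sum _ _ _ fun i hi ↦ ?_
    have h2 := (MvPolynomial.homogeneousComponent_isHomogeneous i g).pderiv (i := j)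
    have h3 : i - 1 = 0 := by
      rw [Finset.mem_range] at hi
      omega
    rwa [h3] at h2
  have h2 := h1.totalDegree_le
  rw [Nat.le_zero] at h2
  exact ⟨_, (MvPolynomial.totalDegree_eq_zero_iff_eq_C).mp h2⟩

theorem qpoly_ne_zero {C : Matrix (Fin m) (Fin m) ℤ} (hm : 3 ≤ m) (hdet : (C + Cᵀ).det ≠ 0) :
    qpoly C ≠ 0 := by
  intro h0
  apply hdet
  have h1 : C + Cᵀ = 0 := by
    ext j k
    have h2 : MvPolynomial.pderiv k (MvPolynomial.pderiv j (qpoly C)) = 0 := by
      rw [h0, map_zero, map_zero]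
    rw [pderiv_qpoly] at h2
    simp only [Matrix.mulVec, dotProduct, Matrix.map_apply, map_sum, Derivation.leibniz,
      MvPolynomial.pderiv_C, MvPolynomial.pderiv_X, smul_eq_mul, Pi.single_apply, mul_ite, mul_one,
      mul_zero, Finset.sum_ite_eq', Finset.mem_univ, if_true, add_zero] at h2
    exact MvPolynomial.C_injective _ _ (h2.trans (map_zero _).symm)
  rw [h1]
  have : Nonempty (Fin m) := ⟨⟨0, by omega⟩⟩
  exact Matrix.det_zero

theorem irreducible_qpoly {C : Matrix (Fin m) (Fin m) ℤ} (hm : 3 ≤ m) (hdet : (C + Cᵀ).det ≠ 0)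
    (hcont : ∀ n : ℤ, (∀ v, n ∣ qf C v) → IsUnit n) : Irreducible (qpoly C) := by
  classical
  have hF0 : qpoly C ≠ 0 := qpoly_ne_zero hm hdet
  have hdeg : (qpoly C).totalDegree = 2 := (isHomogeneous_qpoly C).totalDegree hF0
  have hconst : ∀ n : ℤ, MvPolynomial.C n ∣ qpoly C →
      IsUnit (MvPolynomial.C n : MvPolynomial (Fin m) ℤ) := by
    intro n hn
    refine (hcont n fun v ↦ ?_).map MvPolynomial.C
    have := map_dvd (MvPolynomial.eval v) hn
    rwa [MvPolynomial.eval_C, eval_qpoly] at this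
  refine ⟨?_, ?_⟩
  · intro hu
    have := (MvPolynomial.isUnit_iff_totalDegree_of_isReduced.mp hu).2
    omega
  · intro g h hgh
    have hg0 : g ≠ 0 := by rintro rfl; exact hF0 (by rw [hgh, zero_mul])
    have hh0 : h ≠ 0 := by rintro rfl; exact hF0 (by rw [hgh, mul_zero])
    have hd : g.totalDegree + h.totalDegree = 2 := by
      rw [← MvPolynomial.totalDegree_mul_of_isDomain hg0 hh0, ← hgh, hdeg]
    rcases Nat.eq_zero_or_pos g.totalDegree with hg | hg
    · left
      have h1 := (MvPolynomial.totalDegree_eq_zero_iff_eq_C).mp hg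
      rw [h1]
      apply hconst
      rw [← h1]
      exact ⟨h, hgh⟩
    rcases Nat.eq_zero_or_pos h.totalDegree with hh | hh
    · right
      have h1 := (MvPolynomial.totalDegree_eq_zero_iff_eq_C).mp hh
      rw [h1]
      apply hconst
      rw [← h1]
      exact ⟨g, by rw [hgh, mul_comm]⟩
    exfalso
    choose g' hg' using fun j ↦ pderiv_const (g := g) (by omega) j
    choose h' hh' using fun j ↦ pderiv_const (g := h) (by omega) j
    have hG : ∀ j k, (C + Cᵀ) j k = g' k * h' j + h' k * g' j := by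
      intro j k
      have h2 : MvPolynomial.pderiv k (MvPolynomial.pderiv j (qpoly C)) =
          MvPolynomial.C (g' k * h' j + h' k * g' j) := by
        rw [hgh]
        simp only [Derivation.leibniz, hg', hh', smul_eq_mul, map_add, MvPolynomial.pderiv_C,
          mul_zero, zero_add, map_mul]
        ring
      rw [pderiv_qpoly] at h2
      simp only [Matrix.mulVec, dotProduct, Matrix.map_apply, map_sum, Derivation.leibniz,
        MvPolynomial.pderiv_C, MvPolynomial.pderiv_X, smul_eq_mul, Pi.single_apply, mul_ite,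
        mul_one, mul_zero, Finset.sum_ite_eq', Finset.mem_univ, if_true, add_zero] at h2
      exact MvPolynomial.C_injective _ _ h2
    let B : Matrix (Fin 2) (Fin m) ℚ := Matrix.of ![fun k ↦ (g' k : ℚ), fun k ↦ (h' k : ℚ)]
    have hker : LinearMap.ker B.mulVecLin ≠ ⊥ := by
      apply LinearMap.ker_ne_bot_of_finrank_lt
      rw [Module.finrank_fin_fun, Module.finrank_fin_fun]
      omega
    obtain ⟨v, hv, hv0⟩ := (Submodule.ne_bot_iff _).mp hker
    have hv1 : ∑ k, (g' k : ℚ) * v k = 0 := by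
      have := congrFun (LinearMap.mem_ker.mp hv) 0
      simpa [B, Matrix.mulVec, dotProduct] using this
    have hv2 : ∑ k, (h' k : ℚ) * v k = 0 := by
      have := congrFun (LinearMap.mem_ker.mp hv) 1
      simpa [B, Matrix.mulVec, dotProduct] using this
    have hGv : (C + Cᵀ).map (Int.castRingHom ℚ) *ᵥ v = 0 := by
      ext j
      have h3 : ∑ k, (((C + Cᵀ) j k : ℤ) : ℚ) * v k =
          (h' j : ℚ) * ∑ k, (g' k : ℚ) * v k + (g' j : ℚ) * ∑ k, (h' k : ℚ) * v k := by
        rw [Finset.mul_sum, Finset.mul_sum, ← Finset.sum_add_distrib]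
        refine Finset.sum_congr rfl fun k _ ↦ ?_
        rw [hG]
        push_cast
        ring
      rw [hv1, hv2, mul_zero, mul_zero, add_zero] at h3
      simpa [Matrix.mulVec, dotProduct] using h3
    have hdet0 : ((C + Cᵀ).map (Int.castRingHom ℚ)).det ≠ 0 := by
      rw [← RingHom.mapMatrix_apply, ← RingHom.map_det]
      simpa using hdet
    exact hv0 (Matrix.eq_zero_of_mulVec_eq_zero hdet0 hGv)

theorem IsMin.content {M : Matrix (Fin m) (Fin m) ℚ} (hm : 3 ≤ m) (hM : M.det ≠ 0)
    {C : Matrix (Fin m) (Fin m) ℤ} (hC : IsMin M C) (n : ℤ) (hn : ∀ v, n ∣ qf C v) : IsUnit n := by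
  by_contra hnu
  obtain ⟨p, hp, hpn⟩ := Int.exists_prime_and_dvd (n := n) (by
    rwa [Int.isUnit_iff_natAbs_eq] at hnu)
  have hpp : Nat.Prime p.natAbs := Int.prime_iff_natAbs_prime.mp hp
  have : Fact p.natAbs.Prime := ⟨hpp⟩
  have h1 := hC.subspace hM p.natAbs ⊤ 1 (fun v _ ↦ by
    rw [pow_one, Int.natAbs_dvd]
    exact hpn.trans (hn v))
  rw [finrank_top, Module.finrank_fin_fun] at h1
  omega

theorem IsMin.prime_qpoly {M : Matrix (Fin m) (Fin m) ℚ} (hm : 3 ≤ m) (hM : M.det ≠ 0)
    {C : Matrix (Fin m) (Fin m) ℤ} (hC : IsMin M C) : Prime (qpoly C) :=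
  (irreducible_qpoly hm (hC.1.det_ne_zero hM) (hC.content hm hM)).prime

end Pool.Agent.QuadModel
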