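import Pool.Agent.QuadModel.Chart
import Pool.Agent.QuadModel.Domain

set_option autoImplicit false

namespace Pool.Agent.QuadModel

open Matrix Module HomogeneousLocalization

variable {m : ℕ}

theorem IsMin.isRegularRing_chart {M : Matrix (Fin m) (Fin m) ℚ} (hM : M.det ≠ 0)
    {C : Matrix (Fin m) (Fin m) ℤ} (hC : IsMin M C)
    (hrad : ∀ (p : ℕ) [Fact p.Prime], finrank (ZMod p) (radSub (redMat p C)) ≤ 1) (i : Fin m) :
    IsRegularRing (MvPolynomial (Fin m) ℤ ⧸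
      Ideal.span {qpoly C, (MvPolynomial.X i - 1 : MvPolynomial (Fin m) ℤ)}) := by
  refine isRegularRing_iff.mpr fun P hP ↦ ?_
  have hF : qpoly C ∈ P.comap (Ideal.Quotient.mk (Ideal.span {qpoly C,
      (MvPolynomial.X i - 1 : MvPolynomial (Fin m) ℤ)})) := by
    rw [Ideal.mem_comap, Ideal.Quotient.eq_zero_iff_mem.mpr (Ideal.subset_span (by simp))]
    exact P.zero_mem
  have hX : (MvPolynomial.X i - 1 : MvPolynomial (Fin m) ℤ) ∈ P.comap
      (Ideal.Quotient.mk (Ideal.span {qpoly C,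
      (MvPolynomial.X i - 1 : MvPolynomial (Fin m) ℤ)})) := by
    rw [Ideal.mem_comap, Ideal.Quotient.eq_zero_iff_mem.mpr (Ideal.subset_span (by simp))]
    exact P.zero_mem
  exact isRegularLocalRing_atPrime_quotient _ _ _ rfl P _ rfl
    (fun α β s hs h ↦ hC.local_condition hM hrad i _ hF hX α β s hs h)

theorem IsMin.isRegularRing_away {M : Matrix (Fin m) (Fin m) ℚ} (hM : M.det ≠ 0)
    {C : Matrix (Fin m) (Fin m) ℤ} (hC : IsMin M C)
    (hrad : ∀ (p : ℕ) [Fact p.Prime], finrank (ZMod p) (radSub (redMat p C)) ≤ 1)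
    {A : Type*} [CommRing A] (𝒜 : ℕ → Submodule ℤ A) [GradedAlgebra 𝒜]
    (φ : MvPolynomial (Fin m) ℤ →+* A) (hφ : ∀ n g, g.IsHomogeneous n → φ g ∈ 𝒜 n)
    (hs : ∀ n, ∀ a ∈ 𝒜 n, ∃ g, g.IsHomogeneous n ∧ φ g = a)
    (hker : ∀ g, φ g = 0 ↔ g ∈ Ideal.span {qpoly C}) (i : Fin m) :
    IsRegularRing (Away 𝒜 (φ (MvPolynomial.X i))) := by
  obtain ⟨e⟩ := nonempty_away_equiv 𝒜 φ hφ hs (qpoly C) (isHomogeneous_qpoly C) hker i
  have := hC.isRegularRing_chart hM hrad i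
  exact IsRegularRing.of_ringEquiv e

end Pool.Agent.QuadModel
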