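import Pool.Agent.QuadModel.Subst
import Pool.Agent.QuadModel.RegChart
import Pool.Agent.QuadModel.ProjZ
import Pool.Agent.QuadModel.Fibre

set_option autoImplicit false

namespace Pool.Agent.QuadModel

open Matrix AlgebraicGeometry CategoryTheory CategoryTheory.Limits HomogeneousLocalization

variable {m : ℕ}

section Ring

variable {F : MvPolynomial (Fin m) ℤ}

theorem isDomain_qring (hF : Prime F) : IsDomain (QRing F) := by
  have : (Ideal.span {F}).IsPrime := (Ideal.span_singleton_prime hF.ne_zero).mpr hF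
  exact Ideal.Quotient.isDomain _

theorem not_mem_span_of_totalDegree_lt {f : MvPolynomial (Fin m) ℤ} (hf0 : f ≠ 0)
    (hf : f.totalDegree < F.totalDegree) : f ∉ Ideal.span {F} := by
  intro h
  obtain ⟨v, rfl⟩ := Ideal.mem_span_singleton.mp h
  have hF0 : F ≠ 0 := by rintro rfl; exact hf0 (zero_mul _)
  have hv0 : v ≠ 0 := by rintro rfl; exact hf0 (mul_zero _)
  rw [MvPolynomial.totalDegree_mul_of_isDomain hF0 hv0] at hf
  omega

theorem charZero_qring (hd : 0 < F.totalDegree) : CharZero (QRing F) := by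
  refine charZero_of_inj_zero fun n hn ↦ ?_
  by_contra hne
  refine not_mem_span_of_totalDegree_lt (F := F) (f := MvPolynomial.C (n : ℤ)) ?_ ?_ ?_
  · rw [Ne, MvPolynomial.C_eq_zero]
    exact_mod_cast hne
  · rw [MvPolynomial.totalDegree_C]
    exact hd
  · rw [← Ideal.Quotient.eq_zero_iff_mem, ← hn]
    simp

theorem qmk_X_ne_zero (hd : 1 < F.totalDegree) (i : Fin m) :
    qmk F (MvPolynomial.X i) ≠ 0 := by
  intro h
  refine not_mem_span_of_totalDegree_lt (F := F) (f := MvPolynomial.X i)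
    (MvPolynomial.X_ne_zero i) ?_ (Ideal.Quotient.eq_zero_iff_mem.mp h)
  rw [MvPolynomial.totalDegree_X]
  exact hd

theorem irrelevant_le_span [GradedAlgebra (qgr F)] :
    (HomogeneousIdeal.irrelevant (qgr F)).toIdeal ≤
      Ideal.span (Set.range fun i ↦ qmk F (MvPolynomial.X i)) := by
  rw [HomogeneousIdeal.toIdeal_irrelevant_le]
  rintro k hk _ ⟨g, hg, rfl⟩
  have h1 : g ∈ Ideal.span (MvPolynomial.X '' (Set.univ : Set (Fin m)) :
      Set (MvPolynomial (Fin m) ℤ)) := by
    rw [MvPolynomial.mem_ideal_span_X_image]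
    intro d hd
    by_contra hcon
    push Not at hcon
    have h2 : d = 0 := by
      ext i
      exact hcon i (Set.mem_univ i)
    subst h2
    have h3 := hg (MvPolynomial.mem_support_iff.mp hd)
    simp at h3
    omega
  have h2 := Ideal.mem_map_of_mem (qmk F) h1
  rw [Ideal.map_span, ← Set.image_comp, Set.image_univ] at h2
  exact h2

end Ring

theorem aeval_eq_of_int {A : Type*} [CommRing A] (x : Fin m → A)
    (φ : MvPolynomial (Fin m) ℤ →+* A) (h : ∀ i, φ (MvPolynomial.X i) = x i)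
    (f : MvPolynomial (Fin m) ℤ) :
    (MvPolynomial.aeval x : MvPolynomial (Fin m) ℤ →ₐ[ℤ] A) f = φ f := by
  have : ((MvPolynomial.aeval x : MvPolynomial (Fin m) ℤ →ₐ[ℤ] A) :
      MvPolynomial (Fin m) ℤ →+* A) = φ :=
    MvPolynomial.ringHom_ext (fun r ↦ by simp) (fun i ↦ by simp [h])
  exact congrArg (fun g : MvPolynomial (Fin m) ℤ →+* A ↦ g f) this

theorem aeval_mem_graded {B : Type*} [CommRing B] [Algebra ℚ B] (ℬ : ℕ → Submodule ℚ B)
    [GradedAlgebra ℬ] (y : Fin m → B) (hy : ∀ i, y i ∈ ℬ 1) (n : ℕ)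
    (f : MvPolynomial (Fin m) ℚ) (hf : f.IsHomogeneous n) : MvPolynomial.aeval y f ∈ ℬ n := by
  rw [MvPolynomial.aeval_def, MvPolynomial.eval₂_eq']
  refine Submodule.sum_mem _ fun d hd ↦ ?_
  have hdn : ∑ i, d i = n := by
    rw [← Finsupp.degree_eq_sum]
    by_contra h
    exact MvPolynomial.mem_support_iff.mp hd (hf.coeff_eq_zero h)
  rw [← Algebra.smul_def]
  refine Submodule.smul_mem _ _ ?_
  have h1 := SetLike.prod_pow_mem_graded ℬ (fun _ : Fin m ↦ 1) y (F := Finset.univ)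
    (fun i ↦ d i) (fun k _ ↦ hy k)
  have h2 : ∑ k ∈ (Finset.univ : Finset (Fin m)), d k • (fun _ : Fin m ↦ 1) k = n := by
    simpa using hdn
  rwa [h2] at h1

theorem decompose_aeval {B : Type*} [CommRing B] [Algebra ℚ B] (ℬ : ℕ → Submodule ℚ B)
    [GradedAlgebra ℬ] (y : Fin m → B) (hy : ∀ i, y i ∈ ℬ 1) (f : MvPolynomial (Fin m) ℚ) (k : ℕ) :
    (DirectSum.decompose ℬ (MvPolynomial.aeval y f) k : B) =
      MvPolynomial.aeval y (MvPolynomial.homogeneousComponent k f) := by
  have h0 := fun j ↦ aeval_mem_graded ℬ y hy j _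
    (MvPolynomial.homogeneousComponent_isHomogeneous j f)
  conv_lhs => rw [← MvPolynomial.sum_homogeneousComponent f]
  rw [map_sum, DirectSum.decompose_sum, DFinsupp.finsetSum_apply, AddSubmonoidClass.coe_finsetSum]
  by_cases hk : k ∈ Finset.range (f.totalDegree + 1)
  · rw [Finset.sum_eq_single_of_mem k hk]
    · exact DirectSum.decompose_of_mem_same ℬ (h0 k)
    · intro j _ hjk
      exact DirectSum.decompose_of_mem_ne ℬ (h0 j) hjk
  · rw [MvPolynomial.homogeneousComponent_eq_zero, map_zero]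
    · refine Finset.sum_eq_zero fun j hj ↦ ?_
      exact DirectSum.decompose_of_mem_ne ℬ (h0 j) (by rintro rfl; exact hk hj)
    · rw [Finset.mem_range] at hk
      omega

/-- The arithmetic input assembled into a regular projective flat model. -/
theorem exists_regular_model (hm : 3 ≤ m) {M : Matrix (Fin m) (Fin m) ℚ} (hM : M.det ≠ 0)
    {D : Matrix (Fin m) (Fin m) ℤ} (hD : IsMin M D)
    (hrad : ∀ (p : ℕ) [Fact p.Prime], Module.finrank (ZMod p) (radSub (redMat p D)) ≤ 1)
    (B : Type) [CommRing B] [Algebra ℚ B] (ℬ : ℕ → Submodule ℚ B) [GradedAlgebra ℬ]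
    (y : Fin m → B) (hy : ∀ i, y i ∈ ℬ 1)
    (hsurj : Function.Surjective (MvPolynomial.aeval y : MvPolynomial (Fin m) ℚ →ₐ[ℚ] B))
    (hker : ∀ f : MvPolynomial (Fin m) ℚ, MvPolynomial.aeval y f = 0 ↔ qpoly M ∣ f) :
    ∃ (Y : Scheme),
        IsIntegral Y ∧
        IsLocallyNoetherian Y ∧
        (∀ (U : Y.affineOpens) (p : PrimeSpectrum (Y.presheaf.obj (Opposite.op U.1))),
          ringKrullDim (Localization.AtPrime p.asIdeal) =
            (((Module.finrank (IsLocalRing.ResidueField (Localization.AtPrime p.asIdeal))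
              (IsLocalRing.CotangentSpace (Localization.AtPrime p.asIdeal)) : ℕ) : ℕ∞) :
                WithBot ℕ∞)) ∧
        (∃ (A : Type) (_ : CommRing A) (𝒜 : ℕ → Submodule ℤ A) (_ : GradedAlgebra 𝒜),
          (∀ a ∈ 𝒜 0, ∃ n : ℤ, (n : A) = a) ∧
          (∃ s : Finset A, (∀ a ∈ s, a ∈ 𝒜 1) ∧ Algebra.adjoin ℤ (s : Set A) = ⊤) ∧
          (∃ (N : Matrix (Fin m) (Fin m) ℤ) (x : Fin m → A), (∀ i, x i ∈ 𝒜 1) ∧
            Function.Surjective (MvPolynomial.aeval x : MvPolynomial (Fin m) ℤ →ₐ[ℤ] A) ∧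
            RingHom.ker (MvPolynomial.aeval x : MvPolynomial (Fin m) ℤ →ₐ[ℤ] A) =
              Ideal.span {∑ i, ∑ j,
                MvPolynomial.C (N i j) * MvPolynomial.X i * MvPolynomial.X j}) ∧
          Nonempty (Y ≅ Proj 𝒜)) ∧
        Flat (specZIsTerminal.from Y) ∧
        Nonempty (pullback (specZIsTerminal.from Y)
            (specZIsTerminal.from (Spec (CommRingCat.of ℚ))) ≅ Proj ℬ) := by
  classical
  set F := qpoly D with hFdef
  have hF : Prime F := hD.prime_qpoly hm hM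
  have hFh : F.IsHomogeneous 2 := isHomogeneous_qpoly D
  have hFd : F.totalDegree = 2 := hFh.totalDegree hF.ne_zero
  let _ : GradedAlgebra (qgr F) := qgraded F ⟨2, hFh⟩
  have hdom : IsDomain (QRing F) := isDomain_qring hF
  have hchar : CharZero (QRing F) := charZero_qring (by omega)
  let x : Fin m → QRing F := fun i ↦ qmk F (MvPolynomial.X i)
  have hx : ∀ i, x i ∈ qgr F 1 := fun i ↦ qmk_mem F (MvPolynomial.isHomogeneous_X ℤ i)
  have hx0 : ∀ i, x i ≠ 0 := fun i ↦ qmk_X_ne_zero (by omega) i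
  have hcov := irrelevant_le_span (F := F)
  have hcov' : ⨆ i, Proj.basicOpen (qgr F) (x i) = ⊤ := Proj.iSup_basicOpen_eq_top _ x hcov
  have hreg : ∀ i, IsRegularRing (Away (qgr F) (x i)) := fun i ↦
    hD.isRegularRing_away hM hrad (qgr F) (qmk F : MvPolynomial (Fin m) ℤ →+* QRing F)
      (fun n g hg ↦ qmk_mem F hg) (fun n a ha ↦ (mem_qgr F).mp ha)
      (fun g ↦ Ideal.Quotient.eq_zero_iff_mem) i
  refine ⟨Proj (qgr F), isIntegral_proj (qgr F) (hx ⟨0, by omega⟩) (hx0 _),
    isLocallyNoetherian_proj (qgr F) x hx hcov' hreg, ?_, ?_, flat_proj (qgr F) x hx hx0 hcov', ?_⟩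
  · exact krullDim_of_cover (Proj (qgr F)) (fun i ↦ Proj.basicOpen (qgr F) (x i))
      (fun i ↦ Proj.isAffineOpen_basicOpen _ _ (hx i) one_pos) hcov'
      (fun i ↦ regular_section (qgr F) (hx i) (hreg i))
  · refine ⟨QRing F, inferInstance, qgr F, inferInstance, ?_, ?_, ?_, ⟨Iso.refl _⟩⟩
    · intro a ha
      obtain ⟨n, hn⟩ := qgr_zero F ha
      exact ⟨n, by rw [← hn, eq_intCast]⟩
    · refine ⟨Finset.univ.image x, ?_, ?_⟩
      · intro a ha
        obtain ⟨i, -, rfl⟩ := Finset.mem_image.mp ha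
        exact hx i
      · rw [Finset.coe_image, Finset.coe_univ, Set.image_univ]
        exact adjoin_qmk_X F
    · refine ⟨D, x, hx, fun a ↦ ?_, ?_⟩
      · obtain ⟨f, rfl⟩ := Ideal.Quotient.mk_surjective a
        exact ⟨f, aeval_eq_of_int x (Ideal.Quotient.mk (Ideal.span {F})) (fun i ↦ rfl) f⟩
      · ext f
        rw [RingHom.mem_ker]
        refine (Eq.congr_left (aeval_eq_of_int x (Ideal.Quotient.mk (Ideal.span {F}))
          (fun i ↦ rfl) f)).trans ?_
        rw [Ideal.Quotient.eq_zero_iff_mem, hFdef, qpoly_eq_sum]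
  · -- the generic fibre
    obtain ⟨c, g, hc, hg, hcg⟩ := hD.1.exists_subst
    have hgu : IsUnit g.det := isUnit_iff_ne_zero.mpr hg
    let σ := lsub g⁻¹
    let τ := lsub g
    have hστ : ∀ f, σ (τ f) = f := fun f ↦ by
      have : σ.comp τ = AlgHom.id ℚ _ := by
        rw [lsub_comp, Matrix.mul_nonsing_inv _ hgu, lsub_one]
      exact congrArg (fun h : MvPolynomial (Fin m) ℚ →ₐ[ℚ] MvPolynomial (Fin m) ℚ ↦ h f) this
    have hτσ : ∀ f, τ (σ f) = f := fun f ↦ by
      have : τ.comp σ = AlgHom.id ℚ _ := by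
        rw [lsub_comp, Matrix.nonsing_inv_mul _ hgu, lsub_one]
      exact congrArg (fun h : MvPolynomial (Fin m) ℚ →ₐ[ℚ] MvPolynomial (Fin m) ℚ ↦ h f) this
    let φB : MvPolynomial (Fin m) ℚ →ₐ[ℚ] B := MvPolynomial.aeval y
    have hφB : ∀ n f, f.IsHomogeneous n → φB f ∈ ℬ n := aeval_mem_graded ℬ y hy
    have hker' : ∀ f, φB (σ f) = 0 ↔ MvPolynomial.map (Int.castRingHom ℚ) F ∣ f := by
      intro f
      rw [hker, hcg]
      constructor
      · rintro ⟨v, hv⟩
        refine ⟨MvPolynomial.C c⁻¹ * τ v, ?_⟩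
        have h1 : f = τ (qpoly M) * τ v := by rw [← hτσ f, hv, map_mul]
        calc f = (MvPolynomial.C (c * c⁻¹)) * (τ (qpoly M) * τ v) := by
              rw [mul_inv_cancel₀ hc, map_one, one_mul]
              exact h1
          _ = _ := by rw [map_mul]; ring
      · rintro ⟨v, hv⟩
        refine ⟨MvPolynomial.C c * σ v, ?_⟩
        rw [hv, map_mul, map_mul, hστ, ← MvPolynomial.algebraMap_eq, AlgHom.commutes]
        ring
    let ψ₀ : MvPolynomial (Fin m) ℤ →+* B :=
      (φB.comp σ : MvPolynomial (Fin m) ℚ →+* B).comp (MvPolynomial.map (Int.castRingHom ℚ))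
    have hψ₀ : ∀ f, ψ₀ f = 0 ↔ f ∈ Ideal.span {F} := by
      intro f
      rw [Ideal.mem_span_singleton]
      refine (hker' _).trans ⟨dvd_of_map_dvd hF two_pos hFh, fun h ↦ map_dvd _ h⟩
    let ψ : qgr F →+*ᵍ ℬ :=
      { toRingHom := Ideal.Quotient.lift (Ideal.span {F}) ψ₀ fun a ha ↦ (hψ₀ a).mpr ha
        map_mem := by
          rintro k _ ⟨f, hf, rfl⟩
          exact hφB k _ (lsub_isHomogeneous _ (MvPolynomial.IsHomogeneous.map hf _)) }
    refine generic_fibre (qgr F) ℬ ψ ?_ ?_ x hx hcov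
    · refine (injective_iff_map_eq_zero ψ).mpr fun a ha ↦ ?_
      obtain ⟨f, rfl⟩ := Ideal.Quotient.mk_surjective a
      exact Ideal.Quotient.eq_zero_iff_mem.mpr ((hψ₀ f).mp ha)
    · intro k z hz
      obtain ⟨f, hf⟩ := hsurj z
      have h1 : φB (MvPolynomial.homogeneousComponent k f) = z := by
        have h2 : (DirectSum.decompose ℬ z k : B) = z := DirectSum.decompose_of_mem_same ℬ hz
        rw [← h2, ← hf]
        exact (decompose_aeval ℬ y hy f k).symm
      obtain ⟨n, hn, w, hw⟩ := exists_int_multiple (τ (MvPolynomial.homogeneousComponent k f))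
      refine ⟨n, hn, qmk F w, qmk_mem F (isHomogeneous_of_map ?_), ?_⟩
      · rw [hw]
        exact (lsub_isHomogeneous _
          (MvPolynomial.homogeneousComponent_isHomogeneous k f)).C_mul _
      · change φB (σ (MvPolynomial.map (Int.castRingHom ℚ) w)) = _
        rw [hw, map_mul, hστ, map_mul, h1, ← MvPolynomial.algebraMap_eq, AlgHom.commutes,
          AlgHom.commutes, map_intCast]

end Pool.Agent.QuadModel
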