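import Mathlib

set_option autoImplicit false

namespace Pool.Agent.QuadModel

open Matrix Module

variable {m : ℕ}

/-- The quadratic form attached to a square matrix. -/
def qf {R : Type*} [CommRing R] (C : Matrix (Fin m) (Fin m) R) (v : Fin m → R) : R :=
  v ⬝ᵥ (C *ᵥ v)

/-- Integral forms similar to the rational form with Gram matrix `M`. -/
def Sim (M : Matrix (Fin m) (Fin m) ℚ) (C : Matrix (Fin m) (Fin m) ℤ) : Prop :=
  ∃ (c : ℚ) (g : Matrix (Fin m) (Fin m) ℚ), c ≠ 0 ∧ g.det ≠ 0 ∧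
    (C + Cᵀ).map (Int.castRingHom ℚ) = c • (gᵀ * M * g)

/-- An integral form similar to `M` of smallest discriminant. -/
def IsMin (M : Matrix (Fin m) (Fin m) ℚ) (C : Matrix (Fin m) (Fin m) ℤ) : Prop :=
  Sim M C ∧ ∀ C', Sim M C' → (C + Cᵀ).det.natAbs ≤ (C' + C'ᵀ).det.natAbs

theorem exists_sim (M : Matrix (Fin m) (Fin m) ℚ) (hM : M.IsSymm) : ∃ C, Sim M C := by
  classical
  obtain ⟨b, hb⟩ := IsLocalization.exist_integer_multiples_of_finite (nonZeroDivisors ℤ)
    (fun ij : Fin m × Fin m ↦ M ij.1 ij.2)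
  choose N hN using hb
  have hb0 : (b : ℤ) ≠ 0 := nonZeroDivisors.ne_zero b.2
  refine ⟨Matrix.of fun i j ↦ N (i, j), 2 * (b : ℤ), 1, ?_, by simp, ?_⟩
  · simp
  · ext i j
    have h1 := hN (i, j)
    have h2 := hN (j, i)
    simp only [eq_intCast, zsmul_eq_mul] at h1 h2
    have h3 : M j i = M i j := hM.apply i j
    simp only [Matrix.map_apply, Matrix.add_apply, Matrix.transpose_apply, Matrix.of_apply,
      Matrix.smul_apply, Matrix.transpose_one, Matrix.one_mul, Matrix.mul_one, smul_eq_mul]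
    rw [map_add, eq_intCast, eq_intCast, h1, h2, h3]
    ring

theorem exists_isMin (M : Matrix (Fin m) (Fin m) ℚ) (hM : M.IsSymm) : ∃ C, IsMin M C := by
  classical
  obtain ⟨C, hC⟩ := exists_sim M hM
  have hex : ∃ n, ∃ C, Sim M C ∧ (C + Cᵀ).det.natAbs = n := ⟨_, C, hC, rfl⟩
  obtain ⟨C₀, h0, h1⟩ := Nat.find_spec hex
  exact ⟨C₀, h0, fun C' hC' ↦ h1 ▸ Nat.find_min' hex ⟨C', hC', rfl⟩⟩

theorem Sim.det_ne_zero {M : Matrix (Fin m) (Fin m) ℚ} (hM : M.det ≠ 0)
    {C : Matrix (Fin m) (Fin m) ℤ} (h : Sim M C) : (C + Cᵀ).det ≠ 0 := by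
  obtain ⟨c, g, hc, hg, h⟩ := h
  have h1 := congrArg Matrix.det h
  rw [← RingHom.mapMatrix_apply, ← RingHom.map_det, Matrix.det_smul, Matrix.det_mul,
    Matrix.det_mul, Matrix.det_transpose] at h1
  intro h0
  rw [h0, map_zero] at h1
  have : c ^ Fintype.card (Fin m) * (g.det * M.det * g.det) ≠ 0 := by positivity
  exact this h1.symm

/-- Values of the form on a sum. -/
theorem qf_add {R : Type*} [CommRing R] (C : Matrix (Fin m) (Fin m) R) (v w : Fin m → R) :
    qf C (v + w) = qf C v + qf C w + v ⬝ᵥ ((C + Cᵀ) *ᵥ w) := by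
  unfold qf
  rw [Matrix.mulVec_add, add_dotProduct, dotProduct_add, dotProduct_add, Matrix.add_mulVec,
    dotProduct_add, Matrix.mulVec_transpose]
  have h : w ⬝ᵥ (C *ᵥ v) = v ⬝ᵥ (w ᵥ* C) := by
    rw [Matrix.dotProduct_mulVec, dotProduct_comm]
  rw [h]
  ring

theorem qf_smul {R : Type*} [CommRing R] (C : Matrix (Fin m) (Fin m) R) (r : R) (v : Fin m → R) :
    qf C (r • v) = r ^ 2 * qf C v := by
  unfold qf
  rw [Matrix.mulVec_smul, smul_dotProduct, dotProduct_smul]
  simp only [smul_eq_mul]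
  ring

theorem qf_mulVec {R : Type*} [CommRing R] {n : ℕ} (C : Matrix (Fin m) (Fin m) R)
    (h : Matrix (Fin m) (Fin n) R) (v : Fin n → R) :
    qf C (h *ᵥ v) = qf (hᵀ * C * h) v := by
  unfold qf
  rw [Matrix.mul_assoc, ← Matrix.mulVec_mulVec, ← Matrix.mulVec_mulVec,
    Matrix.dotProduct_mulVec v, Matrix.vecMul_transpose]

theorem qf_single {R : Type*} [CommRing R] (C : Matrix (Fin m) (Fin m) R) (i : Fin m) :
    qf C (Pi.single i 1) = C i i := by
  unfold qf
  simp

theorem qf_map {R R' : Type*} [CommRing R] [CommRing R'] (f : R →+* R')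
    (C : Matrix (Fin m) (Fin m) R) (v : Fin m → R) :
    qf (C.map f) (fun i ↦ f (v i)) = f (qf C v) := by
  unfold qf
  simp only [dotProduct, Matrix.mulVec, Matrix.map_apply, map_sum, map_mul]

/-- The basic substitution step: a substitution all of whose values are divisible by `n` cannot
have small determinant. -/
theorem IsMin.step {M : Matrix (Fin m) (Fin m) ℚ} (hM : M.det ≠ 0)
    {C : Matrix (Fin m) (Fin m) ℤ} (hC : IsMin M C) (h : Matrix (Fin m) (Fin m) ℤ)
    (hh : h.det ≠ 0) (n : ℤ) (hn : n ≠ 0) (hdiv : ∀ v, n ∣ qf C (h *ᵥ v)) :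
    n.natAbs ^ m ≤ h.det.natAbs ^ 2 := by
  classical
  set T := hᵀ * C * h with hT
  have hq : ∀ v, n ∣ qf T v := fun v ↦ by
    rw [hT, ← qf_mulVec]
    exact hdiv v
  have hd : ∀ i, n ∣ T i i := fun i ↦ by
    rw [← qf_single T i]
    exact hq _
  have ho : ∀ i j, n ∣ T i j + T j i := by
    intro i j
    have h1 := qf_add T (Pi.single i 1) (Pi.single j 1)
    have h2 : (Pi.single i 1 : Fin m → ℤ) ⬝ᵥ ((T + Tᵀ) *ᵥ Pi.single j 1) = T i j + T j i := by
      simp
    rw [h2] at h1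
    have h3 : T i j + T j i = qf T (Pi.single i 1 + Pi.single j 1) - qf T (Pi.single i 1)
        - qf T (Pi.single j 1) := by rw [h1]; ring
    rw [h3]
    exact dvd_sub (dvd_sub (hq _) (hq _)) (hq _)
  let C' : Matrix (Fin m) (Fin m) ℤ := Matrix.of fun i j ↦
    if i = j then T i i / n else if i < j then (T i j + T j i) / n else 0
  have hC' : n • (C' + C'ᵀ) = T + Tᵀ := by
    ext i j
    simp only [C', Matrix.smul_apply, Matrix.add_apply, Matrix.of_apply, Matrix.transpose_apply,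
      smul_eq_mul]
    rcases lt_trichotomy i j with hij | hij | hij
    · rw [if_neg hij.ne, if_pos hij, if_neg hij.ne', if_neg hij.asymm, add_zero,
        Int.mul_ediv_cancel' (ho i j)]
    · subst hij
      simp only [if_true]
      rw [mul_add, Int.mul_ediv_cancel' (hd i)]
    · rw [if_neg hij.ne', if_neg hij.asymm, if_neg hij.ne, if_pos hij, zero_add,
        Int.mul_ediv_cancel' (ho j i), add_comm]
  have hTT : T + Tᵀ = hᵀ * (C + Cᵀ) * h := by
    rw [hT, Matrix.transpose_mul, Matrix.transpose_mul, Matrix.transpose_transpose,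
      Matrix.mul_add, Matrix.add_mul, Matrix.mul_assoc, Matrix.mul_assoc]
  have hS : Sim M C' := by
    obtain ⟨⟨c, g, hc, hg, hcg⟩, -⟩ := hC
    have hnq : (n : ℚ) ≠ 0 := by exact_mod_cast hn
    refine ⟨c / n, g * h.map (Int.castRingHom ℚ), div_ne_zero hc hnq, ?_, ?_⟩
    · rw [Matrix.det_mul, ← RingHom.mapMatrix_apply, ← RingHom.map_det]
      exact mul_ne_zero hg (by simpa using hh)
    · have e1 := congrArg (fun A : Matrix (Fin m) (Fin m) ℤ ↦ A.map (Int.castRingHom ℚ))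
        (hC'.trans hTT)
      have e2 : (n • (C' + C'ᵀ)).map (Int.castRingHom ℚ) =
          (n : ℚ) • (C' + C'ᵀ).map (Int.castRingHom ℚ) := by
        ext i j
        rw [Matrix.map_apply, Matrix.smul_apply, Matrix.smul_apply, Matrix.map_apply,
          smul_eq_mul, smul_eq_mul, map_mul, eq_intCast]
      rw [e2, Matrix.map_mul, Matrix.map_mul, hcg] at e1
      have e3 : (C' + C'ᵀ).map (Int.castRingHom ℚ) = (n : ℚ)⁻¹ • ((n : ℚ) •
          (C' + C'ᵀ).map (Int.castRingHom ℚ)) := by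
        rw [smul_smul, inv_mul_cancel₀ hnq, one_smul]
      rw [e3, e1, Matrix.transpose_mul, ← Matrix.transpose_map, Matrix.mul_smul, Matrix.smul_mul,
        smul_smul, div_eq_mul_inv, mul_comm c]
      simp only [Matrix.mul_assoc]
  have hle := hC.2 C' hS
  have hdet : n ^ m * (C' + C'ᵀ).det = h.det ^ 2 * (C + Cᵀ).det := by
    have := congrArg Matrix.det (hC'.trans hTT)
    rw [Matrix.det_smul, Matrix.det_mul, Matrix.det_mul, Matrix.det_transpose, Fintype.card_fin]
      at this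
    rw [this]
    ring
  have hdn := congrArg Int.natAbs hdet
  rw [Int.natAbs_mul, Int.natAbs_mul, Int.natAbs_pow, Int.natAbs_pow] at hdn
  have hpos : 0 < (C + Cᵀ).det.natAbs := Int.natAbs_pos.mpr (hC.1.det_ne_zero hM)
  by_contra hcon
  push Not at hcon
  have h1 : h.det.natAbs ^ 2 * (C + Cᵀ).det.natAbs < n.natAbs ^ m * (C + Cᵀ).det.natAbs :=
    Nat.mul_lt_mul_of_pos_right hcon hpos
  have h2 : n.natAbs ^ m * (C + Cᵀ).det.natAbs ≤ n.natAbs ^ m * (C' + C'ᵀ).det.natAbs :=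
    Nat.mul_le_mul_left _ hle
  omega

/-- Reduction of integral vectors modulo `p`. -/
def red (p : ℕ) : (Fin m → ℤ) →ₗ[ℤ] (Fin m → ZMod p) where
  toFun v i := (v i : ZMod p)
  map_add' v w := by ext i; simp
  map_smul' r v := by ext i; simp

@[simp]
theorem red_apply (p : ℕ) (v : Fin m → ℤ) (i : Fin m) : red p v i = (v i : ZMod p) := rfl

theorem red_surjective (p : ℕ) : Function.Surjective (red (m := m) p) := fun w ↦ by
  choose f hf using fun i ↦ ZMod.intCast_surjective (w i)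
  exact ⟨f, funext fun i ↦ hf i⟩

theorem exists_matrix_of_subspace (p : ℕ) [Fact p.Prime] (W : Submodule (ZMod p) (Fin m → ZMod p)) :
    ∃ h : Matrix (Fin m) (Fin m) ℤ, h.det.natAbs = p ^ (m - finrank (ZMod p) W) ∧
      ∀ v, red p (h *ᵥ v) ∈ W := by
  classical
  let W' : Submodule ℤ (Fin m → ZMod p) := W.restrictScalars ℤ
  let N : Submodule ℤ (Fin m → ℤ) := W'.comap (red p)
  let f : (Fin m → ℤ) →ₗ[ℤ] ((Fin m → ZMod p) ⧸ W) :=
    (W.mkQ.restrictScalars ℤ).comp (red p)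
  have hf : LinearMap.ker f = N := by
    ext v
    simp [f, N, W']
  have hs : Function.Surjective f := (Submodule.mkQ_surjective W).comp (red_surjective p)
  let e : ((Fin m → ℤ) ⧸ N) ≃ ((Fin m → ZMod p) ⧸ W) :=
    ((Submodule.quotEquivOfEq _ _ hf.symm).trans (f.quotKerEquivOfSurjective hs)).toEquiv
  have hfin : Finite ((Fin m → ZMod p) ⧸ W) := by
    have : Finite (Fin m → ZMod p) := inferInstance
    exact Quotient.finite _
  have hfin' : Finite ((Fin m → ℤ) ⧸ N) := Finite.of_equiv _ e.symm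
  have hrank : finrank ℤ N = finrank ℤ (Fin m → ℤ) := (Submodule.finiteQuotient_iff N).mp hfin'
  have hcard : Nat.card ((Fin m → ℤ) ⧸ N) = p ^ (m - finrank (ZMod p) W) := by
    rw [Nat.card_congr e, Module.natCard_eq_pow_finrank (K := ZMod p), Nat.card_zmod]
    congr 1
    have := Submodule.finrank_quotient_add_finrank W
    rw [Module.finrank_fin_fun] at this
    omega
  have hfr : Module.Free ℤ N := inferInstance
  let bN : Basis (Fin m) ℤ N := Module.finBasisOfFinrankEq ℤ N (by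
    rw [hrank, Module.finrank_fin_fun])
  have hdet := Submodule.natAbs_det_basis_change (Pi.basisFun ℤ (Fin m)) N bN
  refine ⟨(Matrix.of fun i ↦ (bN i : Fin m → ℤ))ᵀ, ?_, ?_⟩
  · rw [Pi.basisFun_det] at hdet
    rw [Matrix.det_transpose, ← hcard, ← hdet]
    rfl
  · intro v
    have : (Matrix.of fun i ↦ (bN i : Fin m → ℤ))ᵀ *ᵥ v = ((∑ i, v i • bN i : N) : Fin m → ℤ) := by
      ext j
      rw [Matrix.mulVec_transpose, Matrix.vecMul_eq_sum]
      simp
    rw [this]
    exact (∑ i, v i • bN i : N).2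

/-- If the minimal form is divisible by `p ^ e` on the preimage of `W`, then
`e m ≤ 2 (m - dim W)`. -/
theorem IsMin.subspace {M : Matrix (Fin m) (Fin m) ℚ} (hM : M.det ≠ 0)
    {C : Matrix (Fin m) (Fin m) ℤ} (hC : IsMin M C) (p : ℕ) [hp : Fact p.Prime]
    (W : Submodule (ZMod p) (Fin m → ZMod p)) (e : ℕ)
    (hdiv : ∀ v : Fin m → ℤ, red p v ∈ W → (p : ℤ) ^ e ∣ qf C v) :
    e * m ≤ 2 * (m - finrank (ZMod p) W) := by
  obtain ⟨h, hdet, hW⟩ := exists_matrix_of_subspace p W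
  have hp1 : 1 < p := hp.out.one_lt
  have h1 := hC.step hM h (fun h0 ↦ by
    rw [h0, Int.natAbs_zero] at hdet
    exact (pow_pos hp.out.pos _).ne hdet) ((p : ℤ) ^ e)
    (pow_ne_zero _ (by exact_mod_cast hp.out.ne_zero)) (fun v ↦ hdiv _ (hW v))
  rw [hdet, Int.natAbs_pow, Int.natAbs_natCast, ← pow_mul, ← pow_mul] at h1
  have h2 := (Nat.pow_le_pow_iff_right hp1).mp h1
  rwa [mul_comm _ 2] at h2

end Pool.Agent.QuadModel
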