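import Pool.Agent.QuadModel.Domain

set_option autoImplicit false

namespace Pool.Agent.QuadModel

open Matrix Module

variable {m : ℕ}

section Reduction

variable (p : ℕ) [hp : Fact p.Prime]

/-- The integral points of a subspace of `ℚ_p ^ m`. -/
def intPts (W : Submodule ℚ_[p] (Fin m → ℚ_[p])) : Submodule ℤ_[p] (Fin m → ℤ_[p]) where
  carrier := {v | (fun i ↦ (v i : ℚ_[p])) ∈ W}
  zero_mem' := by
    have : (fun i ↦ (((0 : Fin m → ℤ_[p]) i : ℤ_[p]) : ℚ_[p])) = 0 := by ext; simp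
    rw [Set.mem_ofPred_eq, this]
    exact W.zero_mem
  add_mem' {v w} hv hw := by
    have : (fun i ↦ (((v + w) i : ℤ_[p]) : ℚ_[p])) = (fun i ↦ (v i : ℚ_[p])) +
      (fun i ↦ (w i : ℚ_[p])) := by ext; simp
    rw [Set.mem_ofPred_eq, this]
    exact W.add_mem hv hw
  smul_mem' c v hv := by
    have : (fun i ↦ (((c • v) i : ℤ_[p]) : ℚ_[p])) = (c : ℚ_[p]) • (fun i ↦ (v i : ℚ_[p])) := by
      ext; simp
    rw [Set.mem_ofPred_eq, this]
    exact W.smul_mem _ hv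

theorem mem_intPts {W : Submodule ℚ_[p] (Fin m → ℚ_[p])} {v : Fin m → ℤ_[p]} :
    v ∈ intPts p W ↔ (fun i ↦ (v i : ℚ_[p])) ∈ W := Iff.rfl

theorem exists_pow_mul_int (x : ℚ_[p]) : ∃ k : ℕ, ‖(p : ℚ_[p]) ^ k * x‖ ≤ 1 := by
  have h1 : (1 : ℝ) < p := by exact_mod_cast hp.out.one_lt
  obtain ⟨k, hk⟩ := pow_unbounded_of_one_lt ‖x‖ h1
  refine ⟨k, ?_⟩
  rw [norm_mul, norm_pow, Padic.norm_p, inv_pow]
  rw [inv_mul_le_iff₀ (by positivity), mul_one]
  exact hk.le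

theorem exists_pow_smul_mem (W : Submodule ℚ_[p] (Fin m → ℚ_[p])) {w : Fin m → ℚ_[p]}
    (hw : w ∈ W) : ∃ k : ℕ, ∃ v ∈ intPts p W, (fun i ↦ (v i : ℚ_[p])) = (p : ℚ_[p]) ^ k • w := by
  choose k hk using fun i ↦ exists_pow_mul_int p (w i)
  let N := ∑ i, k i
  have hN : ∀ i, ‖(p : ℚ_[p]) ^ N * w i‖ ≤ 1 := by
    intro i
    have h1 : k i ≤ N := Finset.single_le_sum (fun _ _ ↦ Nat.zero_le _) (Finset.mem_univ i)
    obtain ⟨j, hj⟩ := Nat.exists_eq_add_of_le h1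
    rw [hj, add_comm, pow_add, mul_assoc, norm_mul]
    refine mul_le_one₀ ?_ (norm_nonneg _) (hk i)
    rw [norm_pow, Padic.norm_p]
    refine pow_le_one₀ (by positivity) (inv_le_one_of_one_le₀ ?_)
    exact_mod_cast hp.out.one_le
  let v : Fin m → ℤ_[p] := fun i ↦ ⟨(p : ℚ_[p]) ^ N * w i, hN i⟩
  have hv : (fun i ↦ (v i : ℚ_[p])) = (p : ℚ_[p]) ^ N • w := by
    ext i
    rfl
  refine ⟨N, v, ?_, hv⟩
  rw [mem_intPts, hv]
  exact W.smul_mem ((p : ℚ_[p]) ^ N) hw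

/-- Reduction modulo `p` of `p`-adic integral vectors. -/
noncomputable def redZ (v : Fin m → ℤ_[p]) : Fin m → ZMod p := fun i ↦ PadicInt.toZMod (v i)

theorem exists_div_of_redZ {v : Fin m → ℤ_[p]} (hv : redZ p v = 0) :
    ∃ u : Fin m → ℤ_[p], v = (p : ℤ_[p]) • u := by
  have h1 : ∀ i, (p : ℤ_[p]) ∣ v i := by
    intro i
    have h2 : v i ∈ RingHom.ker (PadicInt.toZMod : ℤ_[p] →+* ZMod p) := congrFun hv i
    rw [PadicInt.ker_toZMod, PadicInt.maximalIdeal_eq_span_p, Ideal.mem_span_singleton] at h2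
    exact h2
  choose u hu using h1
  exact ⟨u, funext hu⟩

/-- The reduction of the integral points of a subspace has at least the dimension of the
subspace. -/
theorem exists_reduction (W : Submodule ℚ_[p] (Fin m → ℚ_[p])) :
    ∃ V : Submodule (ZMod p) (Fin m → ZMod p), finrank ℚ_[p] W ≤ finrank (ZMod p) V ∧
      ∀ x ∈ V, ∃ v ∈ intPts p W, redZ p v = x := by
  classical
  obtain ⟨n, ⟨b⟩⟩ := Submodule.nonempty_basis_of_pid (Pi.basisFun ℤ_[p] (Fin m)) (intPts p W)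
  let c : Fin n → Fin m → ZMod p := fun i ↦ redZ p (b i)
  have hlin : LinearIndependent (ZMod p) c := by
    rw [Fintype.linearIndependent_iff]
    intro g hg i
    choose ĝ hĝ using fun j ↦ ZMod.ringHom_surjective (PadicInt.toZMod : ℤ_[p] →+* ZMod p) (g j)
    let v : intPts p W := ∑ j, ĝ j • b j
    have hv : redZ p (v : Fin m → ℤ_[p]) = 0 := by
      rw [← hg]
      ext k
      simp [v, c, redZ, hĝ]
    obtain ⟨u, hu⟩ := exists_div_of_redZ p hv
    have hp0 : (p : ℚ_[p]) ≠ 0 := by exact_mod_cast hp.out.ne_zero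
    have hu' : u ∈ intPts p W := by
      have h1 := v.2
      rw [hu, mem_intPts] at h1
      have h2 := W.smul_mem ((p : ℚ_[p])⁻¹) h1
      rw [mem_intPts]
      convert h2 using 1
      ext k
      simp [hp0]
    have h3 : v = (p : ℤ_[p]) • (⟨u, hu'⟩ : intPts p W) := Subtype.ext hu
    have h4 : ĝ i = (p : ℤ_[p]) * b.repr ⟨u, hu'⟩ i := by
      have h5 : b.repr v i = ĝ i := by
        simp [v, Finsupp.single_apply]
      rw [← h5, h3, map_smul]
      rfl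
    rw [← hĝ i, h4, map_mul]
    simp
  refine ⟨Submodule.span (ZMod p) (Set.range c), ?_, ?_⟩
  · rw [finrank_span_eq_card hlin, Fintype.card_fin]
    have h1 : W ≤ Submodule.span ℚ_[p] (Set.range fun i : Fin n ↦
        (fun k ↦ (((b i : intPts p W) : Fin m → ℤ_[p]) k : ℚ_[p]))) := by
      intro w hw
      obtain ⟨k, v, hv, hvw⟩ := exists_pow_smul_mem p W hw
      have hp0 : (p : ℚ_[p]) ^ k ≠ 0 := pow_ne_zero _ (by exact_mod_cast hp.out.ne_zero)
      have h2 : w = ((p : ℚ_[p]) ^ k)⁻¹ • ((p : ℚ_[p]) ^ k • w) := by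
        rw [smul_smul, inv_mul_cancel₀ hp0, one_smul]
      rw [h2, ← hvw]
      refine Submodule.smul_mem _ _ ?_
      have h3 : v = ((∑ i, b.repr ⟨v, hv⟩ i • b i : intPts p W) : Fin m → ℤ_[p]) := by
        rw [b.sum_repr]
      have h4 : (fun j ↦ (v j : ℚ_[p])) = ∑ i, (b.repr ⟨v, hv⟩ i : ℚ_[p]) •
          (fun k ↦ (((b i : intPts p W) : Fin m → ℤ_[p]) k : ℚ_[p])) := by
        ext j
        have h5 : (v j : ℚ_[p]) = ((((∑ i, b.repr ⟨v, hv⟩ i • b i : intPts p W) :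
            Fin m → ℤ_[p]) j : ℤ_[p]) : ℚ_[p]) :=
          congrArg (fun z : ℤ_[p] ↦ (z : ℚ_[p])) (congrFun h3 j)
        refine h5.trans ?_
        simp [-Basis.sum_repr]
      rw [h4]
      exact Submodule.sum_mem _ fun i _ ↦ Submodule.smul_mem _ _
        (Submodule.subset_span ⟨i, rfl⟩)
    refine (Submodule.finrank_mono h1).trans ?_
    exact (finrank_range_le_card _).trans (by rw [Fintype.card_fin])
  · intro x hx
    induction hx using Submodule.span_induction with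
    | mem x hx =>
      obtain ⟨i, rfl⟩ := hx
      exact ⟨b i, (b i).2, rfl⟩
    | zero => exact ⟨0, Submodule.zero_mem _, by ext; simp [redZ]⟩
    | add x y _ _ hx hy =>
      obtain ⟨v, hv, rfl⟩ := hx
      obtain ⟨w, hw, rfl⟩ := hy
      exact ⟨v + w, Submodule.add_mem _ hv hw, by ext; simp [redZ]⟩
    | smul a x _ hx =>
      obtain ⟨v, hv, rfl⟩ := hx
      obtain ⟨â, hâ⟩ := ZMod.ringHom_surjective (PadicInt.toZMod : ℤ_[p] →+* ZMod p) a
      exact ⟨â • v, Submodule.smul_mem _ _ hv, by ext; simp [redZ, hâ]⟩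

end Reduction

/-- Even-dimensional case: a large isotropic subspace over `ℚ_p` bounds the radical. -/
theorem IsMin.finrank_radSub_le_one {M : Matrix (Fin m) (Fin m) ℚ} (hM : M.det ≠ 0)
    {C : Matrix (Fin m) (Fin m) ℤ} (hC : IsMin M C) (p : ℕ) [hp : Fact p.Prime]
    (W₀ : Submodule ℚ_[p] (Fin m → ℚ_[p]))
    (hW₀ : ∀ x ∈ W₀, qf (M.map (algebraMap ℚ ℚ_[p])) x = 0)
    (hdim : m ≤ 2 * finrank ℚ_[p] W₀ + 3) :
    finrank (ZMod p) (radSub (redMat p C)) ≤ 1 := by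
  classical
  by_contra hcon
  push Not at hcon
  obtain ⟨n, hn1, hn2⟩ := radSub_bound p (redMat p C) (hC.totally_singular hM p)
  obtain ⟨c, g, hc, hg, hcg⟩ := hC.1
  -- transport the isotropic subspace
  let G : Matrix (Fin m) (Fin m) ℚ_[p] := g.map (algebraMap ℚ ℚ_[p])
  have hG : IsUnit G.det := by
    rw [isUnit_iff_ne_zero]
    change (g.map (algebraMap ℚ ℚ_[p])).det ≠ 0
    rw [← RingHom.mapMatrix_apply, ← RingHom.map_det]
    simpa using hg
  let e : (Fin m → ℚ_[p]) ≃ₗ[ℚ_[p]] (Fin m → ℚ_[p]) :=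
    Matrix.toLinearEquiv' G (Matrix.invertibleOfIsUnitDet G hG)
  have he : ∀ v, e v = G *ᵥ v := fun v ↦ rfl
  let W₁ : Submodule ℚ_[p] (Fin m → ℚ_[p]) := W₀.comap (e : (Fin m → ℚ_[p]) →ₗ[ℚ_[p]] _)
  have hW₁dim : finrank ℚ_[p] W₁ = finrank ℚ_[p] W₀ := by
    have : W₁ = W₀.map (e.symm : (Fin m → ℚ_[p]) →ₗ[ℚ_[p]] _) := by
      rw [Submodule.map_equiv_eq_comap_symm]
      rfl
    rw [this]
    exact LinearEquiv.finrank_map_eq e.symm W₀
  have hW₁ : ∀ x ∈ W₁, qf (C.map (Int.castRingHom ℚ_[p])) x = 0 := by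
    intro x hx
    have h1 : qf (M.map (algebraMap ℚ ℚ_[p])) (G *ᵥ x) = 0 := hW₀ _ hx
    have h2 : (C + Cᵀ).map (Int.castRingHom ℚ_[p]) =
        (algebraMap ℚ ℚ_[p] c) • (Gᵀ * M.map (algebraMap ℚ ℚ_[p]) * G) := by
      have h3 := congrArg (fun A : Matrix (Fin m) (Fin m) ℚ ↦ A.map (algebraMap ℚ ℚ_[p])) hcg
      simp only [Matrix.map_map] at h3
      have h4 : (algebraMap ℚ ℚ_[p]) ∘ (Int.castRingHom ℚ) = Int.castRingHom ℚ_[p] := by
        ext z
        simp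
      rw [h4] at h3
      rw [h3]
      ext i j
      simp [G, Matrix.mul_apply, Matrix.map_apply, Matrix.smul_apply]
    have h5 := two_mul_qf (C.map (Int.castRingHom ℚ_[p])) x
    rw [← Matrix.transpose_map, ← Matrix.map_add _ (map_add _), h2, Matrix.smul_mulVec,
      dotProduct_smul] at h5
    have h6 : x ⬝ᵥ ((Gᵀ * M.map (algebraMap ℚ ℚ_[p]) * G) *ᵥ x) =
        qf (M.map (algebraMap ℚ ℚ_[p])) (G *ᵥ x) := by
      rw [qf_mulVec]
      rfl
    rw [h6, h1, smul_zero] at h5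
    exact (mul_eq_zero.mp h5).resolve_left two_ne_zero
  -- reduce modulo `p`
  obtain ⟨V, hVdim, hV⟩ := exists_reduction p W₁
  have hqz : ∀ v ∈ intPts p W₁, qf (C.map (Int.castRingHom ℤ_[p])) v = 0 := by
    intro v hv
    have h1 := hW₁ _ hv
    have h2 := qf_map (PadicInt.Coe.ringHom (p := p)) (C.map (Int.castRingHom ℤ_[p])) v
    have h3 : (C.map (Int.castRingHom ℤ_[p])).map (PadicInt.Coe.ringHom (p := p)) =
        C.map (Int.castRingHom ℚ_[p]) := by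
      ext i j
      simp
    rw [h3] at h2
    have h4 : (PadicInt.Coe.ringHom (p := p)) (qf (C.map (Int.castRingHom ℤ_[p])) v) = 0 :=
      h2.symm.trans h1
    exact Subtype.coe_injective h4
  have hVs : ∀ x ∈ V, qf (redMat p C) x = 0 := by
    intro x hx
    obtain ⟨v, hv, rfl⟩ := hV x hx
    have h1 := qf_map (PadicInt.toZMod (p := p)) (C.map (Int.castRingHom ℤ_[p])) v
    rw [hqz v hv, map_zero] at h1
    have h3 : (C.map (Int.castRingHom ℤ_[p])).map (PadicInt.toZMod (p := p)) = redMat p C := by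
      ext i j
      simp
    rw [h3] at h1
    exact h1
  have hsup : ∀ x ∈ V ⊔ radSub (redMat p C), qf (redMat p C) x = 0 := by
    intro x hx
    obtain ⟨a, ha, b, hb, rfl⟩ := Submodule.mem_sup.mp hx
    rw [qf_add, hVs a ha, hb.2, hb.1, dotProduct_zero]
    simp
  have hsup2 := hC.totally_singular hM p _ hsup
  have hdimf := Submodule.finrank_sup_add_finrank_inf_eq V (radSub (redMat p C))
  have hinf : V ⊓ radSub (redMat p C) ≠ ⊥ := by
    intro h0
    rw [h0, finrank_bot] at hdimf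
    omega
  obtain ⟨x, hx, hx0⟩ := (Submodule.ne_bot_iff _).mp hinf
  obtain ⟨v, hv, hvx⟩ := hV x hx.1
  -- approximate by an integral vector
  let a : Fin m → ℤ := fun i ↦ ((v i).appr 2 : ℕ)
  have hav : ∀ i, ∃ u, v i = (a i : ℤ_[p]) + (p : ℤ_[p]) ^ 2 * u := by
    intro i
    obtain ⟨u, hu⟩ := Ideal.mem_span_singleton.mp (PadicInt.appr_spec 2 (v i))
    refine ⟨u, ?_⟩
    rw [← hu]
    simp [a]
  choose u hu using hav
  have hred : red p a = x := by
    rw [← hvx]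
    ext i
    change ((a i : ℤ) : ZMod p) = PadicInt.toZMod (v i)
    rw [hu i, map_add, map_mul, map_pow, map_natCast, map_intCast]
    simp
  refine hC.not_sq_dvd hM p a (hred ▸ hx.2) (hred ▸ hx0) ?_
  have h1 : v = (fun i ↦ (a i : ℤ_[p])) + (p : ℤ_[p]) ^ 2 • u := by
    ext1 i
    rw [hu i]
    rfl
  have h2 := hqz v hv
  rw [h1, qf_add, qf_smul, Matrix.mulVec_smul, dotProduct_smul] at h2
  have h3 : qf (C.map (Int.castRingHom ℤ_[p])) (fun i ↦ (a i : ℤ_[p])) =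
      ((qf C a : ℤ) : ℤ_[p]) := qf_map (Int.castRingHom ℤ_[p]) C a
  rw [h3] at h2
  rw [← PadicInt.pow_p_dvd_int_iff]
  refine ⟨-((p : ℤ_[p]) ^ 2 * qf (C.map (Int.castRingHom ℤ_[p])) u +
    (fun i ↦ (a i : ℤ_[p])) ⬝ᵥ ((C.map (Int.castRingHom ℤ_[p]) +
      (C.map (Int.castRingHom ℤ_[p]))ᵀ) *ᵥ u)), ?_⟩
  rw [smul_eq_mul] at h2
  linear_combination h2

end Pool.Agent.QuadModel
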