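import Pool.Agent.QuadModel.GradedQuot

set_option autoImplicit false

namespace Pool.Agent.QuadModel

open MvPolynomial HomogeneousLocalization

variable {m : ℕ}

theorem eval₂_mul_of_isHomogeneous {R R' : Type*} [CommRing R] [CommRing R'] (f : R →+* R')
    (c : R') (y : Fin m → R') {g : MvPolynomial (Fin m) R} {n : ℕ} (hg : g.IsHomogeneous n) :
    eval₂ f (fun j ↦ c * y j) g = c ^ n * eval₂ f y g := by
  rw [eval₂_eq', eval₂_eq', Finset.mul_sum]
  refine Finset.sum_congr rfl fun d hd ↦ ?_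
  have hdn : ∑ i, d i = n := by
    rw [← Finsupp.degree_eq_sum]
    by_contra h
    exact mem_support_iff.mp hd (hg.coeff_eq_zero h)
  simp_rw [mul_pow]
  rw [Finset.prod_mul_distrib, Finset.prod_pow_eq_pow_sum, hdn]
  ring

/-- Homogenisation in degree `N` with respect to the variable `X i`. -/
noncomputable def homog {R : Type*} [CommRing R] (i : Fin m) (N : ℕ) (g : MvPolynomial (Fin m) R) :
    MvPolynomial (Fin m) R :=
  ∑ k ∈ Finset.range (N + 1), homogeneousComponent k g * X i ^ (N - k)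

theorem isHomogeneous_homog {R : Type*} [CommRing R] (i : Fin m) (N : ℕ)
    (g : MvPolynomial (Fin m) R) : (homog i N g).IsHomogeneous N := by
  refine IsHomogeneous.sum _ _ _ fun k hk ↦ ?_
  have h1 := (homogeneousComponent_isHomogeneous k g).mul ((isHomogeneous_X R i).pow (N - k))
  have h2 : k + 1 * (N - k) = N := by
    rw [Finset.mem_range] at hk
    omega
  rwa [h2] at h1

theorem homog_sub_mem {R : Type*} [CommRing R] (i : Fin m) (g : MvPolynomial (Fin m) R) :
    homog i g.totalDegree g - g ∈ Ideal.span {(X i - 1 : MvPolynomial (Fin m) R)} := by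
  have h1 : homog i g.totalDegree g - g = ∑ k ∈ Finset.range (g.totalDegree + 1),
      homogeneousComponent k g * (X i ^ (g.totalDegree - k) - 1) := by
    have h2 := sum_homogeneousComponent g
    simp only [mul_sub, mul_one, Finset.sum_sub_distrib, h2]
    rfl
  rw [h1]
  refine Ideal.sum_mem _ fun k _ ↦ Ideal.mul_mem_left _ _ ?_
  rw [Ideal.mem_span_singleton]
  simpa using sub_dvd_pow_sub_pow (X i : MvPolynomial (Fin m) R) 1 (g.totalDegree - k)

section Away

variable {A : Type*} [CommRing A] (𝒜 : ℕ → Submodule ℤ A) [GradedAlgebra 𝒜]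
  (φ : MvPolynomial (Fin m) ℤ →+* A) (hφ : ∀ n g, g.IsHomogeneous n → φ g ∈ 𝒜 n)
  (hs : ∀ n, ∀ a ∈ 𝒜 n, ∃ g, g.IsHomogeneous n ∧ φ g = a)

include hφ in
omit [GradedAlgebra 𝒜] in
theorem phi_X_mem (i : Fin m) : φ (X i) ∈ 𝒜 1 := hφ 1 _ (isHomogeneous_X ℤ i)

/-- The coordinate map of a standard chart. -/
noncomputable def rho (i : Fin m) : MvPolynomial (Fin m) ℤ →+* Away 𝒜 (φ (X i)) :=
  eval₂Hom (Int.castRingHom _) fun j ↦
    Away.mk 𝒜 (phi_X_mem 𝒜 φ hφ i) 1 (φ (X j)) (by simpa using phi_X_mem 𝒜 φ hφ j)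

theorem val_rho_of_isHomogeneous (i : Fin m) {n : ℕ} {g : MvPolynomial (Fin m) ℤ}
    (hg : g.IsHomogeneous n) :
    (rho 𝒜 φ hφ i g).val = Localization.mk (φ g)
      (⟨φ (X i) ^ n, ⟨n, rfl⟩⟩ : Submonoid.powers (φ (X i))) := by
  have h1 : ∀ h, (rho 𝒜 φ hφ i h).val = eval₂ (Int.castRingHom (Localization.Away (φ (X i))))
      (fun j ↦ Localization.mk 1 (⟨φ (X i), ⟨1, pow_one _⟩⟩ : Submonoid.powers (φ (X i))) *
        algebraMap A (Localization.Away (φ (X i))) (φ (X j))) h := by
    intro h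
    have : (algebraMap (Away 𝒜 (φ (X i))) (Localization.Away (φ (X i)))).comp (rho 𝒜 φ hφ i) =
        eval₂Hom (Int.castRingHom (Localization.Away (φ (X i))))
        (fun j ↦ Localization.mk 1 (⟨φ (X i), ⟨1, pow_one _⟩⟩ : Submonoid.powers (φ (X i))) *
          algebraMap A (Localization.Away (φ (X i))) (φ (X j))) := by
      apply MvPolynomial.ringHom_ext
      · intro r
        simp
      · intro j
        simp only [rho, RingHom.comp_apply, eval₂Hom_X', HomogeneousLocalization.algebraMap_apply,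
          Away.val_mk]
        rw [← Localization.mk_one_eq_algebraMap, Localization.mk_mul]
        simp
    exact congrFun (congrArg DFunLike.coe this) h
  have h2 : ∀ h, eval₂ (Int.castRingHom (Localization.Away (φ (X i))))
      (fun j ↦ algebraMap A (Localization.Away (φ (X i))) (φ (X j))) h =
      algebraMap A (Localization.Away (φ (X i))) (φ h) := by
    intro h
    have : (algebraMap A (Localization.Away (φ (X i)))).comp φ =
        eval₂Hom (Int.castRingHom (Localization.Away (φ (X i))))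
        (fun j ↦ algebraMap A (Localization.Away (φ (X i))) (φ (X j))) := by
      apply MvPolynomial.ringHom_ext
      · intro r
        simp
      · intro j
        simp
    exact (congrFun (congrArg DFunLike.coe this) h).symm
  rw [h1, eval₂_mul_of_isHomogeneous _ _ _ hg, h2, Localization.mk_pow,
    ← Localization.mk_one_eq_algebraMap, Localization.mk_mul]
  simp only [one_pow, one_mul, mul_one]
  rfl

include hs in
theorem rho_surjective (i : Fin m) : Function.Surjective (rho 𝒜 φ hφ i) := by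
  intro z
  obtain ⟨n, a, ha, rfl⟩ := Away.mk_surjective 𝒜 (phi_X_mem 𝒜 φ hφ i) z
  obtain ⟨g, hg, hga⟩ := hs n a (by simpa using ha)
  refine ⟨g, ?_⟩
  apply HomogeneousLocalization.val_injective
  rw [val_rho_of_isHomogeneous 𝒜 φ hφ i hg, Away.val_mk, hga]

theorem ker_rho (F : MvPolynomial (Fin m) ℤ) {d : ℕ} (hF : F.IsHomogeneous d)
    (hker : ∀ g, φ g = 0 ↔ g ∈ Ideal.span {F}) (i : Fin m) :
    RingHom.ker (rho 𝒜 φ hφ i) = Ideal.span {F, X i - 1} := by
  have hFmem : F ∈ Ideal.span {F, (X i - 1 : MvPolynomial (Fin m) ℤ)} :=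
    Ideal.subset_span (by simp)
  have hXmem : (X i - 1 : MvPolynomial (Fin m) ℤ) ∈ Ideal.span {F, (X i - 1)} :=
    Ideal.subset_span (by simp)
  have hX : rho 𝒜 φ hφ i (X i - 1) = 0 := by
    rw [map_sub, map_one, sub_eq_zero]
    apply HomogeneousLocalization.val_injective
    rw [val_rho_of_isHomogeneous 𝒜 φ hφ i (isHomogeneous_X ℤ i), HomogeneousLocalization.val_one]
    have : (⟨φ (X i) ^ 1, ⟨1, rfl⟩⟩ : Submonoid.powers (φ (X i))) =
      ⟨φ (X i), ⟨1, pow_one _⟩⟩ := Subtype.ext (pow_one _)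
    rw [this]
    exact Localization.mk_self (⟨φ (X i), ⟨1, pow_one _⟩⟩ : Submonoid.powers (φ (X i)))
  apply le_antisymm
  · intro g hg
    rw [RingHom.mem_ker] at hg
    set h := homog i g.totalDegree g with hh
    have h1 := homog_sub_mem i g
    have h1' : h - g ∈ Ideal.span {F, (X i - 1 : MvPolynomial (Fin m) ℤ)} :=
      Ideal.span_mono (by simp) h1
    have h2 : rho 𝒜 φ hφ i h = 0 := by
      obtain ⟨c, hc⟩ := Ideal.mem_span_singleton'.mp h1
      have h3 := congrArg (rho 𝒜 φ hφ i) hc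
      rw [map_mul, hX, mul_zero, map_sub, hg, sub_zero] at h3
      exact h3.symm
    have h3 := congrArg HomogeneousLocalization.val h2
    rw [val_rho_of_isHomogeneous 𝒜 φ hφ i (isHomogeneous_homog i _ g),
      HomogeneousLocalization.val_zero, Localization.mk_eq_mk', IsLocalization.mk'_eq_zero_iff] at h3
    obtain ⟨⟨_, M, rfl⟩, h4⟩ := h3
    simp only at h4
    rw [← map_pow, ← map_mul, hker] at h4
    have h5 : X i ^ M * h ∈ Ideal.span {F, (X i - 1 : MvPolynomial (Fin m) ℤ)} :=
      Ideal.span_mono (by simp) h4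
    have h6 : (X i ^ M - 1 : MvPolynomial (Fin m) ℤ) ∈ Ideal.span {F, (X i - 1)} := by
      obtain ⟨c, hc⟩ : (X i - 1 : MvPolynomial (Fin m) ℤ) ∣ X i ^ M - 1 := by
        simpa using sub_dvd_pow_sub_pow (X i : MvPolynomial (Fin m) ℤ) 1 M
      rw [hc]
      exact Ideal.mul_mem_right _ _ hXmem
    have h7 : g = X i ^ M * h - h * (X i ^ M - 1) - (h - g) := by ring
    rw [h7]
    exact Ideal.sub_mem _ (Ideal.sub_mem _ h5 (Ideal.mul_mem_left _ _ h6)) h1'
  · rw [Ideal.span_le]
    rintro x (rfl | rfl)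
    · rw [SetLike.mem_coe, RingHom.mem_ker]
      apply HomogeneousLocalization.val_injective
      rw [val_rho_of_isHomogeneous 𝒜 φ hφ i hF, (hker x).mpr (Ideal.mem_span_singleton_self x),
        HomogeneousLocalization.val_zero]
      exact Localization.mk_zero _
    · rw [SetLike.mem_coe, RingHom.mem_ker, hX]

include hφ hs in
/-- The standard chart of the hypersurface `F = 0`. -/
theorem nonempty_away_equiv (F : MvPolynomial (Fin m) ℤ) {d : ℕ} (hF : F.IsHomogeneous d)
    (hker : ∀ g, φ g = 0 ↔ g ∈ Ideal.span {F}) (i : Fin m) :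
    Nonempty ((MvPolynomial (Fin m) ℤ ⧸ Ideal.span {F, (X i - 1)}) ≃+* Away 𝒜 (φ (X i))) :=
  ⟨(Ideal.quotEquivOfEq (ker_rho 𝒜 φ hφ F hF hker i).symm).trans
    (RingHom.quotientKerEquivOfSurjective (rho_surjective 𝒜 φ hφ hs i))⟩

end Away

end Pool.Agent.QuadModel
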