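import Pool.Agent.QuadModel.Radical

set_option autoImplicit false

namespace Pool.Agent.QuadModel

open Matrix Module

variable {m : ℕ}

theorem two_mul_qf {R : Type*} [CommRing R] (D : Matrix (Fin m) (Fin m) R) (v : Fin m → R) :
    2 * qf D v = v ⬝ᵥ ((D + Dᵀ) *ᵥ v) := by
  rw [Matrix.add_mulVec, dotProduct_add, Matrix.mulVec_transpose]
  have h : v ⬝ᵥ (v ᵥ* D) = v ⬝ᵥ (D *ᵥ v) := by
    rw [Matrix.dotProduct_mulVec, dotProduct_comm]
  rw [h]
  unfold qf
  ring

theorem qf_sum_of_gram {R : Type*} [CommRing R] {ι : Type*} (D : Matrix (Fin m) (Fin m) R)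
    (s : Finset ι) (v : ι → Fin m → R) (hv : ∀ t, (D + Dᵀ) *ᵥ (v t) = 0) :
    qf D (∑ t ∈ s, v t) = ∑ t ∈ s, qf D (v t) := by
  classical
  induction s using Finset.induction_on with
  | empty => simp [qf]
  | insert a s ha ih =>
    rw [Finset.sum_insert ha, Finset.sum_insert ha, add_comm, qf_add, hv, dotProduct_zero, ih]
    ring

/-- A point of the radical over an extension field, with one coordinate equal to one, is rational
over `𝔽_p` as soon as the radical over `𝔽_p` has dimension at most one. -/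
theorem descend (p : ℕ) [hp : Fact p.Prime] {κ : Type*} [Field κ] [Algebra (ZMod p) κ]
    (D : Matrix (Fin m) (Fin m) (ZMod p)) (hD : finrank (ZMod p) (radSub D) ≤ 1)
    (x : Fin m → κ) (hG : (D + Dᵀ).map (algebraMap (ZMod p) κ) *ᵥ x = 0)
    (hq : qf (D.map (algebraMap (ZMod p) κ)) x = 0) (i : Fin m) (hi : x i = 1) :
    ∃ w ∈ radSub D, ∀ j, x j = algebraMap (ZMod p) κ (w j) := by
  classical
  let b := Basis.ofVectorSpace (ZMod p) κ
  let v := fun t (j : Fin m) ↦ b.repr (x j) t
  have hv1 : ∀ t, (D + Dᵀ) *ᵥ (v t) = 0 := by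
    intro t
    ext k
    have h1 := congrFun hG k
    have h2 := congrArg (b.coord t) h1
    simp only [Matrix.mulVec, dotProduct, Matrix.map_apply, ← Algebra.smul_def, map_sum, map_smul,
      Pi.zero_apply, map_zero, smul_eq_mul, Basis.coord_apply] at h2
    simp only [Matrix.mulVec, dotProduct, Pi.zero_apply]
    exact h2
  have hsum : ∀ j, x j = ∑ t ∈ Finset.univ.biUnion (fun j ↦ (b.repr (x j)).support),
      v t j • b t := by
    intro j
    conv_lhs => rw [← b.linearCombination_repr (x j)]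
    rw [Finsupp.linearCombination_apply, Finsupp.sum_of_support_subset]
    · exact Finset.subset_biUnion_of_mem (fun j ↦ (b.repr (x j)).support) (Finset.mem_univ j)
    · intro t _
      rw [zero_smul]
  set T := Finset.univ.biUnion (fun j ↦ (b.repr (x j)).support) with hT
  have hv2 : ∀ t, qf D (v t) = 0 := by
    by_cases hp2 : p = 2
    · subst hp2
      have hκ : CharP κ 2 := charP_of_injective_algebraMap (algebraMap (ZMod 2) κ).injective 2
      have hx : x = ∑ t ∈ T, b t • (fun j ↦ algebraMap (ZMod 2) κ (v t j)) := by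
        ext j
        rw [hsum j, Finset.sum_apply]
        refine Finset.sum_congr rfl fun t _ ↦ ?_
        rw [Pi.smul_apply, Algebra.smul_def, smul_eq_mul, mul_comm]
      have hgr : ∀ t, (D.map (algebraMap (ZMod 2) κ) + (D.map (algebraMap (ZMod 2) κ))ᵀ) *ᵥ
          (b t • (fun j ↦ algebraMap (ZMod 2) κ (v t j))) = 0 := by
        intro t
        rw [Matrix.mulVec_smul, ← Matrix.transpose_map, ← Matrix.map_add _ (map_add _)]
        have : (D + Dᵀ).map (algebraMap (ZMod 2) κ) *ᵥ (fun j ↦ algebraMap (ZMod 2) κ (v t j)) =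
            fun k ↦ algebraMap (ZMod 2) κ (((D + Dᵀ) *ᵥ (v t)) k) := by
          ext k
          simp [Matrix.mulVec, dotProduct]
        rw [this, hv1]
        ext k
        simp
      have h1 : ∑ t ∈ T, b t ^ 2 * algebraMap (ZMod 2) κ (qf D (v t)) = 0 := by
        rw [← hq, hx, qf_sum_of_gram _ _ _ hgr]
        refine Finset.sum_congr rfl fun t _ ↦ ?_
        rw [qf_smul, qf_map]
      have h2 : (∑ t ∈ T, qf D (v t) • b t) ^ 2 = 0 := by
        rw [← h1]
        rw [← frobenius_def, map_sum]
        refine Finset.sum_congr rfl fun t _ ↦ ?_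
        rw [frobenius_def, Algebra.smul_def, mul_pow, ← map_pow, ZMod.pow_card (qf D (v t)),
          mul_comm]
      have h3 : ∑ t ∈ T, qf D (v t) • b t = 0 := pow_eq_zero_iff (two_ne_zero) |>.mp h2
      have h4 := linearIndependent_iff'.mp b.linearIndependent T _ h3
      intro t
      by_cases ht : t ∈ T
      · exact h4 t ht
      · have : v t = 0 := by
          ext j
          by_contra hne
          exact ht (Finset.mem_biUnion.mpr ⟨j, Finset.mem_univ j, Finsupp.mem_support_iff.mpr hne⟩)
        rw [this]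
        simp [qf]
    · intro t
      have h1 := two_mul_qf D (v t)
      rw [hv1, dotProduct_zero] at h1
      have h2 : (2 : ZMod p) ≠ 0 := by
        intro h
        have : ((2 : ℕ) : ZMod p) = 0 := by exact_mod_cast h
        rw [ZMod.natCast_eq_zero_iff] at this
        exact hp2 ((Nat.prime_dvd_prime_iff_eq hp.out Nat.prime_two).mp this)
      exact (mul_eq_zero.mp h1).resolve_left h2
  have hv : ∀ t, v t ∈ radSub D := fun t ↦ ⟨hv1 t, hv2 t⟩
  have hne : ∃ t, v t i ≠ 0 := by
    by_contra hcon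
    push Not at hcon
    have : b.repr (x i) = 0 := by
      ext t
      exact hcon t
    rw [hi, map_eq_zero_iff _ b.repr.injective] at this
    exact one_ne_zero this
  obtain ⟨t₀, ht₀⟩ := hne
  obtain ⟨⟨w₀, hw₀⟩, hspan⟩ := finrank_le_one_iff.mp hD
  have hsp : ∀ t, ∃ c : ZMod p, c • w₀ = v t := fun t ↦ by
    obtain ⟨c, hc⟩ := hspan ⟨v t, hv t⟩
    exact ⟨c, congrArg Subtype.val hc⟩
  choose c hc using hsp
  have hw0i : w₀ i ≠ 0 := by
    intro h0
    apply ht₀
    rw [← hc, Pi.smul_apply, h0, smul_zero]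
  refine ⟨(w₀ i)⁻¹ • w₀, Submodule.smul_mem _ _ hw₀, fun j ↦ ?_⟩
  rw [← mul_one (algebraMap (ZMod p) κ _), ← Algebra.smul_def, ← hi]
  apply b.repr.injective
  ext t
  rw [map_smul, Finsupp.smul_apply]
  change v t j = _ • v t i
  rw [← hc]
  simp only [Pi.smul_apply, smul_eq_mul]
  field_simp

end Pool.Agent.QuadModel
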