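import Mathlib

set_option autoImplicit false

namespace Pool.Agent.QuadModel

noncomputable section

open MvPolynomial DirectSum

variable {m : ℕ} {R : Type*} [CommRing R] (F : MvPolynomial (Fin m) R)

/-- The coordinate ring of the projective hypersurface `F = 0`. -/
abbrev QRing : Type _ := MvPolynomial (Fin m) R ⧸ Ideal.span {F}

/-- The quotient map as an algebra map. -/
abbrev qmk : MvPolynomial (Fin m) R →ₐ[R] QRing F := Ideal.Quotient.mkₐ R (Ideal.span {F})

/-- The graded pieces of the coordinate ring of the hypersurface `F = 0`. -/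
def qgr (i : ℕ) : Submodule R (QRing F) :=
  (homogeneousSubmodule (Fin m) R i).map (qmk F).toLinearMap

theorem mem_qgr {i : ℕ} {x : QRing F} : x ∈ qgr F i ↔ ∃ g, g.IsHomogeneous i ∧ qmk F g = x := by
  rfl

theorem qmk_mem {i : ℕ} {g : MvPolynomial (Fin m) R} (hg : g.IsHomogeneous i) :
    qmk F g ∈ qgr F i := ⟨g, hg, rfl⟩

instance qgr_gradedMonoid : SetLike.GradedMonoid (qgr F) where
  one_mem := ⟨1, isHomogeneous_one _ _, map_one (qmk F)⟩
  mul_mem := by
    rintro i j _ _ ⟨a, ha, rfl⟩ ⟨b, hb, rfl⟩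
    exact ⟨a * b, ha.mul hb, map_mul (qmk F) a b⟩

/-- Restriction of the quotient map to a graded piece. -/
def qres (i : ℕ) : homogeneousSubmodule (Fin m) R i →ₗ[R] qgr F i :=
  (qmk F).toLinearMap.submoduleMap (homogeneousSubmodule (Fin m) R i)

theorem coe_qres {i : ℕ} (g : homogeneousSubmodule (Fin m) R i) :
    (qres F i g : QRing F) = qmk F g := rfl

attribute [local instance] MvPolynomial.gradedAlgebra

/-- The map to the direct sum of graded pieces, before passing to the quotient. -/
def qtheta : MvPolynomial (Fin m) R →ₐ[R] ⨁ i, qgr F i :=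
  (DirectSum.toAlgebra R (fun i ↦ homogeneousSubmodule (Fin m) R i)
    (fun i ↦ (DirectSum.lof R ℕ (fun i ↦ qgr F i) i).comp (qres F i))
    (by
      rw [DirectSum.one_def]
      rfl)
    (by
      intro i j a b
      simp only [LinearMap.comp_apply, DirectSum.lof_eq_of]
      rw [DirectSum.of_mul_of]
      congr 1)).comp
    (DirectSum.decomposeAlgEquiv (homogeneousSubmodule (Fin m) R)).toAlgHom

theorem qtheta_apply {i : ℕ} {g : MvPolynomial (Fin m) R} (hg : g.IsHomogeneous i) :
    qtheta F g = DirectSum.of (fun i ↦ qgr F i) i ⟨qmk F g, qmk_mem F hg⟩ := by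
  unfold qtheta
  simp only [AlgHom.comp_apply]
  have : (DirectSum.decomposeAlgEquiv (homogeneousSubmodule (Fin m) R)).toAlgHom g =
      DirectSum.of (fun i ↦ homogeneousSubmodule (Fin m) R i) i ⟨g, hg⟩ :=
    DirectSum.decompose_of_mem _ hg
  rw [this]
  rw [DirectSum.toAlgebra_apply]
  erw [DirectSum.toSemiring_of]
  rfl

theorem qtheta_of_mem_span (hF : ∃ d, F.IsHomogeneous d) {g : MvPolynomial (Fin m) R}
    (hg : g ∈ Ideal.span {F}) : qtheta F g = 0 := by
  obtain ⟨d, hd⟩ := hF
  obtain ⟨a, rfl⟩ := Ideal.mem_span_singleton'.mp hg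
  rw [map_mul, qtheta_apply F hd]
  have : (⟨qmk F F, qmk_mem F hd⟩ : qgr F d) = 0 := by
    ext
    exact Ideal.Quotient.eq_zero_iff_mem.mpr (Ideal.mem_span_singleton_self F)
  rw [this, map_zero, mul_zero]

/-- The grading on the coordinate ring of a projective hypersurface. -/
@[instance_reducible]
def qgraded (hF : ∃ d, F.IsHomogeneous d) : GradedAlgebra (qgr F) :=
  GradedAlgebra.ofAlgHom (qgr F)
    (Ideal.Quotient.liftₐ (Ideal.span {F}) (qtheta F) fun _ ha ↦ qtheta_of_mem_span F hF ha)
    (by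
      apply Ideal.Quotient.algHom_ext
      apply MvPolynomial.algHom_ext
      intro i
      have h1 := qtheta_apply F (isHomogeneous_X R i)
      change DirectSum.coeAlgHom (qgr F) (qtheta F (X i)) = qmk F (X i)
      rw [h1]
      exact DirectSum.coeAlgHom_of _ _ _)
    (by
      rintro i ⟨_, g, hg, rfl⟩
      exact qtheta_apply F hg)

theorem qgr_zero {x : QRing F} (hx : x ∈ qgr F 0) : ∃ r : R, algebraMap R (QRing F) r = x := by
  obtain ⟨g, hg, rfl⟩ := hx
  have h1 := (IsHomogeneous.totalDegree_le hg)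
  rw [Nat.le_zero] at h1
  have h2 := totalDegree_eq_zero_iff_eq_C.mp h1
  refine ⟨coeff 0 g, ?_⟩
  conv_rhs => rw [h2]
  rfl

theorem adjoin_qmk_X :
    Algebra.adjoin R (Set.range fun i ↦ qmk F (X i)) = ⊤ := by
  have h1 : Algebra.adjoin R (Set.range (X : Fin m → MvPolynomial (Fin m) R)) = ⊤ :=
    MvPolynomial.adjoin_range_X
  have h2 := congrArg (Subalgebra.map (qmk F)) h1
  rw [AlgHom.map_adjoin, Algebra.map_top, ← Set.range_comp] at h2
  change Algebra.adjoin R (Set.range (qmk F ∘ X)) = ⊤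
  rw [h2, AlgHom.range_eq_top]
  exact Ideal.Quotient.mkₐ_surjective _ _

end

end Pool.Agent.QuadModel
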