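import Mathlib

set_option autoImplicit false

namespace Pool.Agent.QuadModel

open AlgebraicGeometry CategoryTheory HomogeneousLocalization

section Regular

/-- A scheme covered by affine opens with regular rings of sections has regular local rings. -/
theorem regular_of_cover (Y : Scheme) {ι : Type*} (V : ι → Y.Opens) (hV : ∀ i, IsAffineOpen (V i))
    (hcov : ⨆ i, V i = ⊤) (hreg : ∀ i, IsRegularRing Γ(Y, V i))
    (U : Y.affineOpens) (p : PrimeSpectrum (Y.presheaf.obj (Opposite.op U.1))) :
    IsRegularLocalRing (Localization.AtPrime p.asIdeal) := by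
  have hU := U.2
  let y : Y := hU.fromSpec p
  have hyU : y ∈ U.1 := by
    have : y ∈ Set.range hU.fromSpec := ⟨p, rfl⟩
    rwa [hU.range_fromSpec] at this
  obtain ⟨i, hi⟩ := TopologicalSpace.Opens.mem_iSup.mp (hcov.ge (Set.mem_univ y))
  have hstalk : IsRegularLocalRing (Y.presheaf.stalk y) := by
    let _ := Y.presheaf.algebra_section_stalk ⟨y, hi⟩
    have h1 := (hV i).isLocalization_stalk ⟨y, hi⟩
    have h2 : IsRegularLocalRing (Localization.AtPrime ((hV i).primeIdealOf ⟨y, hi⟩).asIdeal) :=
      IsRegularRing.isRegularLocalRing_localization _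
    exact IsRegularLocalRing.of_ringEquiv
      (IsLocalization.algEquiv ((hV i).primeIdealOf ⟨y, hi⟩).asIdeal.primeCompl
        (Localization.AtPrime ((hV i).primeIdealOf ⟨y, hi⟩).asIdeal)
        (Y.presheaf.stalk y)).toRingEquiv
  let _ := Y.presheaf.algebra_section_stalk ⟨y, hyU⟩
  have hloc : IsLocalization.AtPrime (Y.presheaf.stalk y) p.asIdeal :=
    hU.isLocalization_stalk' p hyU
  exact IsRegularLocalRing.of_ringEquiv (IsLocalization.algEquiv p.asIdeal.primeCompl
    (Y.presheaf.stalk y) (Localization.AtPrime p.asIdeal)).toRingEquiv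

theorem krullDim_of_cover (Y : Scheme) {ι : Type*} (V : ι → Y.Opens)
    (hV : ∀ i, IsAffineOpen (V i))
    (hcov : ⨆ i, V i = ⊤) (hreg : ∀ i, IsRegularRing Γ(Y, V i))
    (U : Y.affineOpens) (p : PrimeSpectrum (Y.presheaf.obj (Opposite.op U.1))) :
    ringKrullDim (Localization.AtPrime p.asIdeal) =
      (((Module.finrank (IsLocalRing.ResidueField (Localization.AtPrime p.asIdeal))
        (IsLocalRing.CotangentSpace (Localization.AtPrime p.asIdeal)) : ℕ) : ℕ∞) :
          WithBot ℕ∞) := by
  have h := regular_of_cover Y V hV hcov hreg U p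
  exact ((IsRegularLocalRing.iff_finrank_cotangentSpace _).mp h).symm

end Regular

section Proj

variable {R A : Type} [CommRing R] [CommRing A] [Algebra R A] (𝒜 : ℕ → Submodule R A)
  [GradedAlgebra 𝒜]

/-- The generic point of `Proj` of a graded domain. -/
def genericPt [IsDomain A] (h : ¬ HomogeneousIdeal.irrelevant 𝒜 ≤ ⊥) :
    ProjectiveSpectrum 𝒜 where
  asHomogeneousIdeal := ⊥
  isPrime := by
    have : (⊥ : HomogeneousIdeal 𝒜).toIdeal = ⊥ := HomogeneousIdeal.toIdeal_bot
    rw [this]
    exact Ideal.isPrime_bot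
  not_irrelevant_le := h

theorem isIntegral_proj [IsDomain A] {a : A} (ha : a ∈ 𝒜 1) (ha0 : a ≠ 0) :
    IsIntegral (Proj 𝒜) := by
  have h : ¬ HomogeneousIdeal.irrelevant 𝒜 ≤ ⊥ := by
    intro hle
    apply ha0
    have h1 : a ∈ HomogeneousIdeal.irrelevant 𝒜 := by
      rw [HomogeneousIdeal.mem_irrelevant_iff, GradedRing.proj_apply,
        DirectSum.decompose_of_mem_ne 𝒜 ha one_ne_zero]
    have h2 := hle h1
    exact h2
  have hirr : IrreducibleSpace (Proj 𝒜) := by
    have h1 : closure ({genericPt 𝒜 h} : Set (ProjectiveSpectrum 𝒜)) = Set.univ := by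
      rw [Set.eq_univ_iff_forall]
      intro x
      rw [← ProjectiveSpectrum.le_iff_mem_closure, ← ProjectiveSpectrum.as_ideal_le_as_ideal]
      exact bot_le
    have h2 : IsIrreducible (Set.univ : Set (ProjectiveSpectrum 𝒜)) := by
      rw [← h1]
      exact isIrreducible_singleton.closure
    exact (irreducibleSpace_def _).mpr h2
  have hred : IsReduced (Proj 𝒜) := by
    have : ∀ x : Proj 𝒜, _root_.IsReduced ((Proj 𝒜).presheaf.stalk x) := by
      intro x
      have hp : x.asHomogeneousIdeal.toIdeal.IsPrime := x.isPrime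
      have h0 : x.asHomogeneousIdeal.toIdeal.primeCompl ≤ nonZeroDivisors A :=
        le_nonZeroDivisors_of_noZeroDivisors (by
          intro h0
          exact h0 (Ideal.zero_mem _))
      have h1 : IsDomain (Localization.AtPrime x.asHomogeneousIdeal.toIdeal) :=
        IsLocalization.isDomain_localization h0
      have h2 : _root_.IsReduced (AtPrime 𝒜 x.asHomogeneousIdeal.toIdeal) :=
        isReduced_of_injective (algebraMap (AtPrime 𝒜 x.asHomogeneousIdeal.toIdeal)
          (Localization.AtPrime x.asHomogeneousIdeal.toIdeal))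
          (HomogeneousLocalization.val_injective _)
      exact isReduced_of_injective (Proj.stalkIso 𝒜 x).commRingCatIsoToRingEquiv
        (Proj.stalkIso 𝒜 x).commRingCatIsoToRingEquiv.injective
    exact isReduced_of_isReduced_stalk _
  exact isIntegral_of_irreducibleSpace_of_isReduced _

end Proj

end Pool.Agent.QuadModel
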