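import Pool.Agent.QuadModel.Lattice

set_option autoImplicit false

namespace Pool.Agent.QuadModel

open Matrix Module

variable {m : ℕ}

/-- The homogeneous polynomial of degree two attached to a square matrix. -/
noncomputable def qpoly {R : Type*} [CommRing R] (C : Matrix (Fin m) (Fin m) R) :
    MvPolynomial (Fin m) R :=
  qf (C.map MvPolynomial.C) MvPolynomial.X

theorem qpoly_eq_sum {R : Type*} [CommRing R] (C : Matrix (Fin m) (Fin m) R) :
    qpoly C = ∑ i, ∑ j, MvPolynomial.C (C i j) * MvPolynomial.X i * MvPolynomial.X j := by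
  unfold qpoly qf
  simp only [dotProduct, Matrix.mulVec, Matrix.map_apply, Finset.mul_sum]
  refine Finset.sum_congr rfl fun i _ ↦ Finset.sum_congr rfl fun j _ ↦ ?_
  ring

theorem isHomogeneous_qpoly {R : Type*} [CommRing R] (C : Matrix (Fin m) (Fin m) R) :
    (qpoly C).IsHomogeneous 2 := by
  rw [qpoly_eq_sum]
  refine MvPolynomial.IsHomogeneous.sum _ _ _ fun i _ ↦ MvPolynomial.IsHomogeneous.sum _ _ _
    fun j _ ↦ ?_
  exact ((MvPolynomial.isHomogeneous_C_mul_X _ _).mul (MvPolynomial.isHomogeneous_X _ _))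

theorem eval₂_qpoly {R R' : Type*} [CommRing R] [CommRing R'] (f : R →+* R')
    (C : Matrix (Fin m) (Fin m) R) (v : Fin m → R') :
    MvPolynomial.eval₂ f v (qpoly C) = qf (C.map f) v := by
  rw [qpoly_eq_sum]
  simp only [MvPolynomial.eval₂_sum, MvPolynomial.eval₂_mul, MvPolynomial.eval₂_C,
    MvPolynomial.eval₂_X]
  unfold qf
  simp only [dotProduct, Matrix.mulVec, Matrix.map_apply, Finset.mul_sum]
  refine Finset.sum_congr rfl fun i _ ↦ Finset.sum_congr rfl fun j _ ↦ ?_
  ring

theorem eval_qpoly {R : Type*} [CommRing R]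
    (C : Matrix (Fin m) (Fin m) R) (v : Fin m → R) :
    MvPolynomial.eval v (qpoly C) = qf C v := by
  have := eval₂_qpoly (RingHom.id R) C v
  rwa [show C.map (RingHom.id R) = C by ext; simp] at this

section Field

variable {K : Type*} [Field K]

/-- The radical of a quadratic form: isotropic vectors orthogonal to everything. -/
def radSub (D : Matrix (Fin m) (Fin m) K) : Submodule K (Fin m → K) where
  carrier := {x | (D + Dᵀ) *ᵥ x = 0 ∧ qf D x = 0}
  zero_mem' := by
    refine ⟨Matrix.mulVec_zero _, ?_⟩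
    unfold qf
    simp
  add_mem' {x y} hx hy := by
    refine ⟨by rw [Matrix.mulVec_add, hx.1, hy.1, add_zero], ?_⟩
    rw [qf_add, hx.2, hy.2, hy.1, dotProduct_zero]
    simp
  smul_mem' c x hx := by
    refine ⟨by rw [Matrix.mulVec_smul, hx.1, smul_zero], ?_⟩
    rw [qf_smul, hx.2, mul_zero]

theorem mem_radSub {D : Matrix (Fin m) (Fin m) K} {x : Fin m → K} :
    x ∈ radSub D ↔ (D + Dᵀ) *ᵥ x = 0 ∧ qf D x = 0 := Iff.rfl

theorem dot_gram_symm {R : Type*} [CommRing R] (D : Matrix (Fin m) (Fin m) R) (x y : Fin m → R) :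
    x ⬝ᵥ ((D + Dᵀ) *ᵥ y) = y ⬝ᵥ ((D + Dᵀ) *ᵥ x) := by
  rw [Matrix.dotProduct_mulVec, dotProduct_comm, ← Matrix.mulVec_transpose]
  congr 2
  rw [Matrix.transpose_add, Matrix.transpose_transpose, add_comm]

/-- Vectors orthogonal to a subspace. -/
def orth (D : Matrix (Fin m) (Fin m) K) (W : Submodule K (Fin m → K)) :
    Submodule K (Fin m → K) where
  carrier := {x | ∀ w ∈ W, w ⬝ᵥ ((D + Dᵀ) *ᵥ x) = 0}
  zero_mem' := fun w _ ↦ by rw [Matrix.mulVec_zero, dotProduct_zero]
  add_mem' {x y} hx hy := fun w hw ↦ by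
    rw [Matrix.mulVec_add, dotProduct_add, hx w hw, hy w hw, add_zero]
  smul_mem' c x hx := fun w hw ↦ by
    rw [Matrix.mulVec_smul, dotProduct_smul, hx w hw, smul_zero]

theorem mem_orth {D : Matrix (Fin m) (Fin m) K} {W : Submodule K (Fin m → K)} {x : Fin m → K} :
    x ∈ orth D W ↔ ∀ w ∈ W, w ⬝ᵥ ((D + Dᵀ) *ᵥ x) = 0 := Iff.rfl

theorem le_finrank_orth (D : Matrix (Fin m) (Fin m) K) (W : Submodule K (Fin m → K)) :
    m ≤ finrank K (orth D W) + finrank K W := by
  let φ : (Fin m → K) →ₗ[K] Dual K W :=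
    LinearMap.mk₂ K (fun x (w : W) ↦ (w : Fin m → K) ⬝ᵥ ((D + Dᵀ) *ᵥ x))
      (fun x y w ↦ by rw [Matrix.mulVec_add, dotProduct_add])
      (fun c x w ↦ by rw [Matrix.mulVec_smul, dotProduct_smul])
      (fun x v w ↦ by rw [Submodule.coe_add, add_dotProduct])
      (fun c x w ↦ by rw [Submodule.coe_smul, smul_dotProduct])
  have hker : LinearMap.ker φ = orth D W := by
    ext x
    rw [LinearMap.mem_ker, mem_orth]
    constructor
    · intro h w hw
      exact LinearMap.congr_fun h ⟨w, hw⟩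
    · intro h
      ext w
      exact h w w.2
  have h1 := LinearMap.finrank_range_add_finrank_ker φ
  rw [hker, Module.finrank_fin_fun] at h1
  have h2 : finrank K (LinearMap.range φ) ≤ finrank K W := by
    rw [← Subspace.dual_finrank_eq (K := K) (V := W)]
    exact Submodule.finrank_le _
  omega

end Field

/-- A quadratic form on a space of dimension at least three over `𝔽_p` has a nontrivial zero;
relative version. -/
theorem exists_isotropic (p : ℕ) [hp : Fact p.Prime] (D : Matrix (Fin m) (Fin m) (ZMod p))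
    (W U : Submodule (ZMod p) (Fin m → ZMod p)) (hWU : W ≤ U)
    (hdim : finrank (ZMod p) W + 3 ≤ finrank (ZMod p) U) :
    ∃ u ∈ U, u ∉ W ∧ qf D u = 0 := by
  classical
  let g : U →ₗ[ZMod p] ((Fin m → ZMod p) ⧸ W) := W.mkQ.comp U.subtype
  have hker : LinearMap.ker g = W.comap U.subtype := by
    ext x
    simp [g]
  have hk : finrank (ZMod p) (LinearMap.ker g) = finrank (ZMod p) W := by
    rw [hker]
    exact (Submodule.comapSubtypeEquivOfLe hWU).finrank_eq
  have hr := LinearMap.finrank_range_add_finrank_ker g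
  have h3 : 3 ≤ finrank (ZMod p) (LinearMap.range g) := by omega
  obtain ⟨f, hf⟩ := exists_linearIndependent_of_le_finrank h3
  have hf' : LinearIndependent (ZMod p) (fun k ↦ ((f k : LinearMap.range g) :
      (Fin m → ZMod p) ⧸ W)) := hf.map' (LinearMap.range g).subtype (Submodule.ker_subtype _)
  choose u hu using fun k ↦ (f k).2
  let H : Matrix (Fin m) (Fin 3) (ZMod p) := Matrix.of fun i k ↦ (u k : Fin m → ZMod p) i
  let E : Matrix (Fin 3) (Fin 3) (ZMod p) := Hᵀ * D * H
  have hH : ∀ x, H *ᵥ x = ((∑ k, x k • u k : U) : Fin m → ZMod p) := by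
    intro x
    ext i
    simp [H, Matrix.mulVec, dotProduct, mul_comm]
  have hcw : p ∣ Fintype.card {x : Fin 3 → ZMod p // MvPolynomial.eval x (qpoly E) = 0} := by
    apply char_dvd_card_solutions
    have := (isHomogeneous_qpoly E).totalDegree_le
    simp only [Fintype.card_fin]
    omega
  have h0 : MvPolynomial.eval (0 : Fin 3 → ZMod p) (qpoly E) = 0 := by
    rw [eval_qpoly]
    unfold qf
    simp
  have hcard : 1 < Fintype.card {x : Fin 3 → ZMod p // MvPolynomial.eval x (qpoly E) = 0} := by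
    have : Nonempty {x : Fin 3 → ZMod p // MvPolynomial.eval x (qpoly E) = 0} := ⟨⟨0, h0⟩⟩
    exact lt_of_lt_of_le hp.out.one_lt (Nat.le_of_dvd Fintype.card_pos hcw)
  obtain ⟨⟨x, hx⟩, hne⟩ := Fintype.exists_ne_of_one_lt_card hcard ⟨0, h0⟩
  have hx0 : x ≠ 0 := fun h ↦ hne (Subtype.ext h)
  refine ⟨H *ᵥ x, ?_, ?_, ?_⟩
  · rw [hH]
    exact (∑ k, x k • u k : U).2
  · intro hW
    rw [hH] at hW
    apply hx0
    have h1 : ∑ k, x k • ((f k : LinearMap.range g) : (Fin m → ZMod p) ⧸ W) = 0 := by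
      have h2 : g (∑ k, x k • u k) = 0 := by
        change W.mkQ _ = 0
        rw [Submodule.mkQ_apply, Submodule.Quotient.mk_eq_zero]
        exact hW
      rw [map_sum] at h2
      rw [← h2]
      refine Finset.sum_congr rfl fun k _ ↦ ?_
      rw [map_smul, hu]
    funext k
    exact Fintype.linearIndependent_iff.mp hf' x h1 k
  · rw [qf_mulVec, ← eval_qpoly]
    exact hx

/-- Structure of the radical of a form over `𝔽_p` whose totally singular subspaces have dimension
at most `m / 2`. -/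
theorem radSub_bound (p : ℕ) [hp : Fact p.Prime] (D : Matrix (Fin m) (Fin m) (ZMod p))
    (h : ∀ W : Submodule (ZMod p) (Fin m → ZMod p), (∀ x ∈ W, qf D x = 0) →
      2 * finrank (ZMod p) W ≤ m) :
    ∃ n, m + finrank (ZMod p) (radSub D) ≤ 2 * n + 2 ∧ 2 * n ≤ m := by
  obtain ⟨W, ⟨hRW, hW⟩, hmax⟩ := WellFounded.has_min
    (wellFounded_gt : WellFounded ((· > ·) : Submodule (ZMod p) (Fin m → ZMod p) →
      Submodule (ZMod p) (Fin m → ZMod p) → Prop))
    {W | radSub D ≤ W ∧ ∀ x ∈ W, qf D x = 0} ⟨radSub D, le_rfl, fun x hx ↦ hx.2⟩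
  refine ⟨finrank (ZMod p) W, ?_, h W hW⟩
  obtain ⟨V₁, hV₁⟩ := Submodule.exists_isCompl (radSub D)
  have hsup : radSub D ⊔ (V₁ ⊓ W) = W := by
    rw [← sup_inf_assoc_of_le _ hRW, hV₁.sup_eq_top, top_inf_eq]
  have hinf : radSub D ⊓ (V₁ ⊓ W) = ⊥ := by
    rw [← inf_assoc, hV₁.inf_eq_bot, bot_inf_eq]
  have hdim := Submodule.finrank_sup_add_finrank_inf_eq (radSub D) (V₁ ⊓ W)
  rw [hsup, hinf, finrank_bot, add_zero] at hdim
  have horth : orth D (V₁ ⊓ W) = orth D W := by
    apply le_antisymm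
    · intro x hx w hw
      rw [← hsup] at hw
      obtain ⟨r, hr, v, hv, rfl⟩ := Submodule.mem_sup.mp hw
      rw [add_dotProduct, hx v hv, dot_gram_symm, hr.1, dotProduct_zero, add_zero]
    · intro x hx w hw
      exact hx w hw.2
  have h1 := le_finrank_orth D (V₁ ⊓ W)
  rw [horth] at h1
  have hWU : W ≤ orth D W := by
    intro x hx w hw
    have := qf_add D w x
    rw [hW _ (W.add_mem hw hx), hW _ hx, hW _ hw] at this
    simpa using this.symm
  have h2 : finrank (ZMod p) (orth D W) ≤ finrank (ZMod p) W + 2 := by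
    by_contra hcon
    obtain ⟨u, hu, huW, hqu⟩ := exists_isotropic p D W (orth D W) hWU (by omega)
    refine hmax (W ⊔ Submodule.span (ZMod p) {u}) ⟨hRW.trans le_sup_left, ?_⟩ ?_
    · intro x hx
      obtain ⟨w, hw, v, hv, rfl⟩ := Submodule.mem_sup.mp hx
      obtain ⟨c, rfl⟩ := Submodule.mem_span_singleton.mp hv
      rw [qf_add, hW _ hw, qf_smul, hqu, Matrix.mulVec_smul, dotProduct_smul, hu w hw]
      simp
    · refine lt_of_le_of_ne le_sup_left fun heq ↦ huW ?_
      rw [heq]
      exact Submodule.mem_sup_right (Submodule.mem_span_singleton_self u)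
  omega

end Pool.Agent.QuadModel
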