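import Pool.Agent.QuadModel.Domain

set_option autoImplicit false

namespace Pool.Agent.QuadModel

open Matrix MvPolynomial

variable {m : ℕ}

section Generic

variable {K : Type*} [CommRing K]

/-- Linear substitution of the variables. -/
noncomputable def lsub (h : Matrix (Fin m) (Fin m) K) :
    MvPolynomial (Fin m) K →ₐ[K] MvPolynomial (Fin m) K :=
  aeval fun i ↦ ∑ j, C (h i j) * X j

theorem lsub_X (h : Matrix (Fin m) (Fin m) K) (i : Fin m) :
    lsub h (X i) = ∑ j, C (h i j) * X j := by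
  unfold lsub
  rw [aeval_X]

theorem lsub_comp (g h : Matrix (Fin m) (Fin m) K) : (lsub h).comp (lsub g) = lsub (g * h) := by
  apply MvPolynomial.algHom_ext
  intro i
  rw [AlgHom.comp_apply, lsub_X, lsub_X, map_sum]
  simp only [map_mul, lsub_X, Matrix.mul_apply, map_sum, Finset.mul_sum, Finset.sum_mul]
  rw [Finset.sum_comm]
  refine Finset.sum_congr rfl fun j _ ↦ Finset.sum_congr rfl fun k _ ↦ ?_
  rw [← algebraMap_eq, AlgHom.commutes, algebraMap_eq]
  ring

theorem lsub_one : lsub (1 : Matrix (Fin m) (Fin m) K) = AlgHom.id K _ := by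
  apply MvPolynomial.algHom_ext
  intro i
  rw [lsub_X, AlgHom.id_apply]
  simp [Matrix.one_apply]

theorem lsub_isHomogeneous (h : Matrix (Fin m) (Fin m) K) {f : MvPolynomial (Fin m) K} {n : ℕ}
    (hf : f.IsHomogeneous n) : (lsub h f).IsHomogeneous n := by
  have := hf.aeval (fun i ↦ ∑ j, C (h i j) * X j) (n := 1) (fun i ↦
    IsHomogeneous.sum _ _ _ fun j _ ↦ isHomogeneous_C_mul_X _ _)
  rwa [one_mul] at this

theorem lsub_qpoly (h D : Matrix (Fin m) (Fin m) K) : lsub h (qpoly D) = qpoly (hᵀ * D * h) := by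
  have h1 : lsub h (qpoly D) = eval₂ C (fun i ↦ ∑ j, C (h i j) * X j) (qpoly D) := rfl
  have h2 : (fun i ↦ ∑ j, C (h i j) * X j : Fin m → MvPolynomial (Fin m) K) =
      (h.map C) *ᵥ X := by
    ext1 i
    simp [Matrix.mulVec, dotProduct]
  rw [h1, eval₂_qpoly, h2, qf_mulVec]
  unfold qpoly
  rw [Matrix.map_mul, Matrix.map_mul, Matrix.transpose_map]

theorem qpoly_add (D E : Matrix (Fin m) (Fin m) K) : qpoly (D + E) = qpoly D + qpoly E := by
  rw [qpoly_eq_sum, qpoly_eq_sum, qpoly_eq_sum, ← Finset.sum_add_distrib]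
  refine Finset.sum_congr rfl fun i _ ↦ ?_
  rw [← Finset.sum_add_distrib]
  refine Finset.sum_congr rfl fun j _ ↦ ?_
  rw [Matrix.add_apply, map_add]
  ring

theorem qpoly_transpose (D : Matrix (Fin m) (Fin m) K) : qpoly Dᵀ = qpoly D := by
  rw [qpoly_eq_sum, qpoly_eq_sum, Finset.sum_comm]
  refine Finset.sum_congr rfl fun i _ ↦ Finset.sum_congr rfl fun j _ ↦ ?_
  rw [Matrix.transpose_apply]
  ring

theorem qpoly_smul (c : K) (D : Matrix (Fin m) (Fin m) K) : qpoly (c • D) = C c * qpoly D := by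
  rw [qpoly_eq_sum, qpoly_eq_sum, Finset.mul_sum]
  refine Finset.sum_congr rfl fun i _ ↦ ?_
  rw [Finset.mul_sum]
  refine Finset.sum_congr rfl fun j _ ↦ ?_
  rw [Matrix.smul_apply, smul_eq_mul, map_mul]
  ring

end Generic

theorem map_qpoly {R R' : Type*} [CommRing R] [CommRing R'] (f : R →+* R')
    (D : Matrix (Fin m) (Fin m) R) : map f (qpoly D) = qpoly (D.map f) := by
  rw [qpoly_eq_sum, qpoly_eq_sum]
  simp

/-- Up to a nonzero rational factor, the integral form is the substituted rational form. -/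
theorem Sim.exists_subst {M : Matrix (Fin m) (Fin m) ℚ} {D : Matrix (Fin m) (Fin m) ℤ}
    (h : Sim M D) : ∃ (c : ℚ) (g : Matrix (Fin m) (Fin m) ℚ), c ≠ 0 ∧ g.det ≠ 0 ∧
      map (Int.castRingHom ℚ) (qpoly D) = C c * lsub g (qpoly M) := by
  obtain ⟨c, g, hc, hg, hcg⟩ := h
  refine ⟨c / 2, g, by positivity, hg, ?_⟩
  have h1 := congrArg qpoly hcg
  rw [Matrix.map_add _ (map_add _), Matrix.transpose_map, qpoly_add, qpoly_transpose, qpoly_smul,
    ← lsub_qpoly, ← map_qpoly] at h1
  have h2 : map (Int.castRingHom ℚ) (qpoly D) = C (1 / 2 : ℚ) *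
      (map (Int.castRingHom ℚ) (qpoly D) + map (Int.castRingHom ℚ) (qpoly D)) := by
    rw [← two_mul, ← mul_assoc, show (2 : MvPolynomial (Fin m) ℚ) = C 2 from (map_ofNat C 2).symm,
      ← map_mul]
    norm_num
  rw [h2, h1, ← mul_assoc, ← map_mul]
  congr 2
  ring

theorem exists_int_multiple (f : MvPolynomial (Fin m) ℚ) :
    ∃ n : ℤ, n ≠ 0 ∧ ∃ w : MvPolynomial (Fin m) ℤ, map (Int.castRingHom ℚ) w = C (n : ℚ) * f := by
  induction f using MvPolynomial.induction_on' with
  | monomial u a =>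
    refine ⟨a.den, by exact_mod_cast a.den_ne_zero, monomial u a.num, ?_⟩
    rw [map_monomial, C_mul_monomial]
    congr 1
    simp only [eq_intCast, Int.cast_natCast]
    rw [mul_comm]
    exact (Rat.mul_den_eq_num a).symm
  | add p q hp hq =>
    obtain ⟨n₁, h₁, w₁, e₁⟩ := hp
    obtain ⟨n₂, h₂, w₂, e₂⟩ := hq
    refine ⟨n₁ * n₂, mul_ne_zero h₁ h₂, C n₂ * w₁ + C n₁ * w₂, ?_⟩
    rw [map_add, map_mul, map_mul, map_C, map_C, e₁, e₂]
    simp only [eq_intCast, Int.cast_mul, map_mul]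
    ring

theorem map_int_injective :
    Function.Injective (map (σ := Fin m) (Int.castRingHom ℚ)) :=
  map_injective _ (by intro a b h; simpa using h)

theorem isHomogeneous_of_map {w : MvPolynomial (Fin m) ℤ} {n : ℕ}
    (h : (map (Int.castRingHom ℚ) w).IsHomogeneous n) : w.IsHomogeneous n := by
  intro d hd
  apply h
  rw [coeff_map]
  simpa using hd

/-- Divisibility by a prime form of positive degree may be checked rationally. -/
theorem dvd_of_map_dvd {F f : MvPolynomial (Fin m) ℤ} (hF : Prime F) {d : ℕ} (hd : 0 < d)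
    (hFh : F.IsHomogeneous d)
    (h : map (Int.castRingHom ℚ) F ∣ map (Int.castRingHom ℚ) f) : F ∣ f := by
  obtain ⟨u, hu⟩ := h
  obtain ⟨n, hn, w, hw⟩ := exists_int_multiple u
  have h1 : C n * f = F * w := by
    apply map_int_injective
    rw [map_mul, map_mul, map_C, hu, hw]
    simp only [eq_intCast]
    ring
  rcases hF.dvd_or_dvd (Dvd.intro w h1.symm) with h2 | h2
  · exfalso
    obtain ⟨v, hv⟩ := h2
    have hv0 : v ≠ 0 := by
      rintro rfl
      rw [mul_zero, C_eq_zero] at hv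
      exact hn hv
    have h3 := congrArg totalDegree hv
    rw [totalDegree_mul_of_isDomain hF.ne_zero hv0, totalDegree_C,
      hFh.totalDegree hF.ne_zero] at h3
    omega
  · exact h2

end Pool.Agent.QuadModel
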